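import Pool.Agent.N606.SI.Defs

set_option autoImplicit false

namespace Pool.Agent.N606.SI

/-- reduction modulo `n` as an element of `Fin n` -/
def md {n : ℕ} (h : 0 < n) (x : ℕ) : Fin n := ⟨x % n, Nat.mod_lt x h⟩

theorem md_val {n : ℕ} (h : 0 < n) {x : ℕ} (hx : x < n) : (md h x : ℕ) = x := Nat.mod_eq_of_lt hx

theorem md_fin {n : ℕ} (h : 0 < n) (x : Fin n) : md h x = x := by
  apply Fin.ext
  exact Nat.mod_eq_of_lt x.2

theorem md_eq {n : ℕ} (h : 0 < n) {x : ℕ} (hx : x < n) : md h x = ⟨x, hx⟩ :=
  Fin.ext (Nat.mod_eq_of_lt hx)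

namespace Alg

variable {ι : Type} {W : ℕ} {α β : Type}

/-- composition -/
def bind : Alg ι W α → (α → Alg ι W β) → Alg ι W β
  | .out a, f => f a
  | .read c next, f => .read c fun w => (next w).bind f

@[simp] theorem run_out (mem : ι → Fin W) (a : α) : (Alg.out a : Alg ι W α).run mem = a := rfl
@[simp] theorem cost_out (mem : ι → Fin W) (a : α) : (Alg.out a : Alg ι W α).cost mem = 0 := rfl

@[simp] theorem run_bind (mem : ι → Fin W) (a : Alg ι W α) (f : α → Alg ι W β) :
    (a.bind f).run mem = (f (a.run mem)).run mem := by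
  induction a with
  | out a => rfl
  | read c next ih => exact ih (mem c)

@[simp] theorem cost_bind (mem : ι → Fin W) (a : Alg ι W α) (f : α → Alg ι W β) :
    (a.bind f).cost mem = a.cost mem + (f (a.run mem)).cost mem := by
  induction a with
  | out a => simp [bind, cost, run]
  | read c next ih =>
    have := ih (mem c)
    simp only [bind, cost, run]
    omega

/-- read one cell -/
def probe (c : ι) : Alg ι W (Fin W) := .read c .out

@[simp] theorem run_probe (mem : ι → Fin W) (c : ι) : (probe c : Alg ι W _).run mem = mem c := rfl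
@[simp] theorem cost_probe (mem : ι → Fin W) (c : ι) : (probe c : Alg ι W _).cost mem = 1 := rfl

/-- read a list of cells -/
def readList : List ι → Alg ι W (List (Fin W))
  | [] => .out []
  | c :: l => (probe c).bind fun w => (readList l).bind fun ws => .out (w :: ws)

@[simp] theorem run_readList (mem : ι → Fin W) (l : List ι) : (readList l).run mem = l.map mem := by
  induction l with
  | nil => rfl
  | cons c l ih => simp [readList, ih]

@[simp] theorem cost_readList (mem : ι → Fin W) (l : List ι) :
    (readList l).cost mem = l.length := by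
  induction l with
  | nil => rfl
  | cons c l ih => simp [readList, ih]; omega

/-- run algorithms one after the other, unite the outputs -/
def unionList [DecidableEq β] : List (Alg ι W (Finset β)) → Alg ι W (Finset β)
  | [] => .out ∅
  | a :: l => a.bind fun x => (unionList l).bind fun y => .out (x ∪ y)

theorem mem_run_unionList [DecidableEq β] (mem : ι → Fin W) (l : List (Alg ι W (Finset β))) (x : β) :
    x ∈ (unionList l).run mem ↔ ∃ a ∈ l, x ∈ a.run mem := by
  induction l with
  | nil => simp [unionList]
  | cons a l ih => simp [unionList, ih]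

theorem cost_unionList [DecidableEq β] (mem : ι → Fin W) (l : List (Alg ι W (Finset β))) :
    (unionList l).cost mem = (l.map fun a => a.cost mem).sum := by
  induction l with
  | nil => rfl
  | cons a l ih => simp [unionList, ih]

/-- run `a 0, …, a (n - 1)`, unite the outputs -/
def unionFin [DecidableEq β] {n : ℕ} (a : Fin n → Alg ι W (Finset β)) : Alg ι W (Finset β) :=
  unionList ((List.finRange n).map a)

theorem mem_run_unionFin [DecidableEq β] {n : ℕ} (mem : ι → Fin W)
    (a : Fin n → Alg ι W (Finset β)) (x : β) :
    x ∈ (unionFin a).run mem ↔ ∃ p, x ∈ (a p).run mem := by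
  simp [unionFin, mem_run_unionList]

theorem cost_unionFin [DecidableEq β] {n : ℕ} (mem : ι → Fin W) (a : Fin n → Alg ι W (Finset β)) :
    (unionFin a).cost mem = ∑ p, (a p).cost mem := by
  rw [unionFin, cost_unionList, List.map_map]
  rw [← List.sum_ofFn, List.ofFn_eq_map]
  rfl

/-- simulate an algorithm for another memory: the cell `c` is at `f c`, its content is decoded -/
def embed {κ : Type} {W' : ℕ} (f : κ → ι) (dec : Fin W → Fin W') : Alg κ W' α → Alg ι W α
  | .out a => .out a
  | .read c next => .read (f c) fun w => (next (dec w)).embed f dec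

theorem run_embed {κ : Type} {W' : ℕ} (f : κ → ι) (dec : Fin W → Fin W') (mem : ι → Fin W)
    (mem' : κ → Fin W') (h : ∀ c, dec (mem (f c)) = mem' c) (a : Alg κ W' α) :
    (a.embed f dec).run mem = a.run mem' := by
  induction a with
  | out a => rfl
  | read c next ih =>
    simp only [embed, run, h]
    exact ih _

theorem cost_embed {κ : Type} {W' : ℕ} (f : κ → ι) (dec : Fin W → Fin W') (mem : ι → Fin W)
    (mem' : κ → Fin W') (h : ∀ c, dec (mem (f c)) = mem' c) (a : Alg κ W' α) :
    (a.embed f dec).cost mem = a.cost mem' := by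
  induction a with
  | out a => rfl
  | read c next ih =>
    simp only [embed, cost, h]
    rw [ih]

end Alg

theorem Family.m_le {N W : ℕ} (F : Family N W) : F.m ≤ N := by
  calc F.m = ∑ _i : Fin F.m, 1 := by simp
    _ ≤ ∑ i, (F.sets i).card := Finset.sum_le_sum fun i _ => (F.nonempty i).card_pos
    _ = N := F.total

/-- other addresses -/
theorem transport {ι : Type} [Fintype ι] {N W C T S : ℕ} (hW : 0 < W) (hS : Fintype.card ι ≤ S)
    (D : DS ι N W) (h : D.Solves C T) : ∃ D' : DS (Fin S) N W, D'.Solves C T := by
  classical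
  obtain ⟨g⟩ : Nonempty (ι ↪ Fin S) := by
    rw [Function.Embedding.nonempty_iff_card_le]; simpa using hS
  refine ⟨⟨fun F => Function.extend g (D.mem F) fun _ => md hW 0,
    fun i j => (D.query i j).embed g id⟩, ?_⟩
  intro F i j
  have h1 : ∀ c, id (Function.extend g (D.mem F) (fun _ => md hW 0) (g c)) = D.mem F c := by
    intro c
    rw [id, g.injective.extend_apply]
  obtain ⟨h2, h3⟩ := h F i j
  exact ⟨(Alg.run_embed g id _ _ h1 _).trans h2, (Alg.cost_embed g id _ _ h1 _).le.trans h3⟩

end Pool.Agent.N606.SI
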