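import Pool.Agent.N606.SI.Sub

set_option autoImplicit false

namespace Pool.Agent.N606.SI

open Finset Alg

/-- The cells: a header with three words for each set; for each big set the sizes of the
intersections and an array with the intersections; the local numbers of the sets; a data structure
and a table for the translation of the elements for each pair of blocks. -/
abbrev CellB (N b N₀ : ℕ) (ι₀ : Type) : Type :=
  (Fin N × Fin 3) ⊕ ((Fin (7 * b) × Fin N) ⊕ ((Fin (7 * b) × Fin N) ⊕
    ((Fin 2 × (Fin N × Fin (7 * b + 1))) ⊕ ((Fin (7 * b + 1) × (Fin (7 * b + 1) × ι₀)) ⊕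
      (Fin (7 * b + 1) × (Fin (7 * b + 1) × Fin N₀))))))

section cells
variable {N b N₀ : ℕ} {ι₀ : Type}
/-- header -/
abbrev cH (x : Fin N) (k : Fin 3) : CellB N b N₀ ι₀ := .inl (x, k)
/-- sizes of the intersections with a big set -/
abbrev cLen (x : Fin (7 * b)) (y : Fin N) : CellB N b N₀ ι₀ := .inr (.inl (x, y))
/-- the intersections with a big set -/
abbrev cArr (x : Fin (7 * b)) (y : Fin N) : CellB N b N₀ ι₀ := .inr (.inr (.inl (x, y)))
/-- local numbers -/
abbrev cId (a : Fin 2) (y : Fin N) (q : Fin (7 * b + 1)) : CellB N b N₀ ι₀ :=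
  .inr (.inr (.inr (.inl (a, (y, q)))))
/-- data structures -/
abbrev cStr (p q : Fin (7 * b + 1)) (c : ι₀) : CellB N b N₀ ι₀ :=
  .inr (.inr (.inr (.inr (.inl (p, (q, c))))))
/-- translation tables -/
abbrev cRen (p q : Fin (7 * b + 1)) (c : Fin N₀) : CellB N b N₀ ι₀ :=
  .inr (.inr (.inr (.inr (.inr (p, (q, c))))))
end cells

/-- the query algorithm -/
noncomputable def queryB {N b N₀ W₀ W : ℕ} {ι₀ : Type} (hN : 0 < N) (hb : 0 < 7 * b) (hN₀ : 0 < N₀)
    (hW₀ : 0 < W₀) (D₀ : DS ι₀ N₀ W₀) (i j : ℕ) : Alg (CellB N b N₀ ι₀) W (Finset (Fin W)) :=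
  (probe (cH (md hN i) 0)).bind fun fi => (probe (cH (md hN i) 1)).bind fun vi =>
  (probe (cH (md hN i) 2)).bind fun si => (probe (cH (md hN j) 0)).bind fun fj =>
  (probe (cH (md hN j) 1)).bind fun vj => (probe (cH (md hN j) 2)).bind fun sj =>
  if (fi : ℕ) = 1 then
    (probe (cLen (md hb vi) (md hN j))).bind fun l =>
      (readList ((List.range l).map fun t => cArr (md hb vi) (md hN (sj + t)))).bind fun ws =>
        .out ws.toFinset
  else if (fj : ℕ) = 1 then
    (probe (cLen (md hb vj) (md hN i))).bind fun l =>
      (readList ((List.range l).map fun t => cArr (md hb vj) (md hN (si + t)))).bind fun ws =>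
        .out ws.toFinset
  else (probe (cId 0 (md hN i) (md (Nat.succ_pos _) vj))).bind fun l =>
    (probe (cId 1 (md hN j) (md (Nat.succ_pos _) vi))).bind fun l' =>
      sub hN₀ hW₀ D₀ (fun c => cStr (md (Nat.succ_pos _) vi) (md (Nat.succ_pos _) vj) c)
        (fun y => cRen (md (Nat.succ_pos _) vi) (md (Nat.succ_pos _) vj) y) l l'

theorem blocks {ι₀ : Type} {N₀ W₀ W C T b : ℕ} (hN₀ : 4 ≤ N₀) (hb : 1 ≤ b)
    (hNW₀ : N₀ ≤ W₀) (hWW : W₀ ≤ W) (hW : 2 * (b * N₀) ≤ W) (hT : 1 ≤ T)
    (D₀ : DS ι₀ N₀ W₀) (h₀ : D₀.Solves C T) :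
    ∃ D : DS (CellB (b * N₀) b N₀ ι₀) (b * N₀) W, D.Solves (C + 8) T := by
  classical
  have hN0 : 0 < N₀ := by omega
  have hN : 0 < b * N₀ := Nat.mul_pos (by omega) hN0
  have hW0 : 0 < W₀ := by omega
  have hWp : 0 < W := by omega
  have hb7 : 0 < 7 * b := by omega
  have hbN : 4 * b ≤ b * N₀ := by rw [mul_comm]; exact Nat.mul_le_mul_left b hN₀
  have hNN : N₀ ≤ b * N₀ := Nat.le_mul_of_pos_left _ (by omega)
  have key : ∀ F : Family (b * N₀) W, ∃ mem : CellB (b * N₀) b N₀ ι₀ → Fin W, ∀ i j : Fin F.m,
      (queryB hN hb7 hN0 hW0 D₀ i j).run mem = F.sets i ∩ F.sets j ∧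
      (queryB hN hb7 hN0 hW0 D₀ i j).cost mem ≤ (C + 8) * (T + (F.sets i ∩ F.sets j).card) := by
    intro F
    have hm := F.m_le
    set B := N₀ / 4 with hB
    have hB1 : 1 ≤ B := by omega
    have hB2 : 4 * B ≤ N₀ := by omega
    have hB3 : N₀ ≤ 7 * B := by omega
    set n : Fin F.m → ℕ := fun i => (F.sets i).card with hn
    have hntot : ∑ i, n i = b * N₀ := F.total
    have hnp : ∀ i, 0 < n i := fun i => (F.nonempty i).card_pos
    have hsn : ∀ i, start n i + n i ≤ b * N₀ := fun i => (start_add_le_total n i).trans F.total.le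
    have hdiv : b * N₀ / B ≤ 7 * b := by
      apply Nat.div_le_of_le_mul
      nlinarith
    -- big sets
    set bigs : Finset (Fin F.m) := univ.filter fun i => B < n i with hbigs
    have hbc : bigs.card ≤ 7 * b := by
      refine le_trans ?_ hdiv
      rw [Nat.le_div_iff_mul_le (by omega)]
      calc bigs.card * B = ∑ i ∈ bigs, B := by simp
        _ ≤ ∑ i ∈ bigs, n i := sum_le_sum fun i hi => (mem_filter.1 hi).2.le
        _ ≤ ∑ i, n i := sum_le_sum_of_subset (subset_univ _)
        _ = b * N₀ := hntot
    set e : bigs ≃ Fin bigs.card := bigs.equivFin with he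
    set rk : Fin F.m → ℕ := fun i => if h : i ∈ bigs then (e ⟨i, h⟩ : ℕ) else 0 with hrk
    set un : Fin (7 * b) → Option (Fin F.m) := fun x =>
      if h : (x : ℕ) < bigs.card then some (e.symm ⟨x, h⟩ : Fin F.m) else none with hun
    have hrk1 : ∀ i ∈ bigs, rk i < bigs.card := by
      intro i hi
      simp only [hrk, hi, dif_pos]
      exact (e ⟨i, hi⟩).2
    have hun1 : ∀ i ∈ bigs, un (md hb7 (rk i)) = some i := by
      intro i hi
      have h1 := hrk1 i hi
      have h2 : md hb7 (rk i) = ⟨rk i, h1.trans_le hbc⟩ := md_eq hb7 _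
      have h3 : (⟨rk i, h1⟩ : Fin bigs.card) = e ⟨i, hi⟩ := by
        apply Fin.ext
        simp only [hrk, hi, dif_pos]
      rw [h2]
      simp only [hun, h1, dif_pos]
      rw [h3, Equiv.symm_apply_apply]
    -- blocks
    set w : Fin F.m → ℕ := fun i => if B < n i then 0 else n i with hw
    obtain ⟨blk, hblk1, hblk2⟩ := bins w B hB1 (by
      intro i; simp only [hw]; split_ifs <;> omega)
    have hblk : ∀ i, blk i < 7 * b + 1 := by
      intro i
      have h1 : (∑ x, w x) / B ≤ b * N₀ / B := by
        apply Nat.div_le_div_right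
        refine le_trans (sum_le_sum fun x _ => ?_) hntot.le
        simp only [hw]; split_ifs <;> omega
      have := hblk1 i
      omega
    set blkF : Fin F.m → Fin (7 * b + 1) := fun i => ⟨blk i, hblk i⟩ with hblkF
    have hblkS : ∀ p : Fin (7 * b + 1),
        ∑ i : {i : Fin F.m // ¬ B < n i ∧ blkF i = p}, n i.1 ≤ 2 * B := by
      intro p
      refine le_trans (le_of_eq ?_) (hblk2 p)
      rw [← sum_subtype (univ.filter fun i : Fin F.m => ¬ B < n i ∧ blkF i = p) (by simp) n]
      calc ∑ i ∈ univ.filter (fun i : Fin F.m => ¬ B < n i ∧ blkF i = p), n i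
          = ∑ i ∈ univ.filter (fun i : Fin F.m => ¬ B < n i ∧ blkF i = p), w i := by
            refine sum_congr rfl fun i hi => ?_
            have := (mem_filter.1 hi).2.1
            simp only [hw, this, if_false]
        _ = ∑ i ∈ univ.filter (fun i : Fin F.m => blk i = p), w i := by
            refine sum_subset ?_ ?_
            · intro i hi
              rw [mem_filter] at hi ⊢
              refine ⟨mem_univ _, ?_⟩
              have := hi.2.2
              rw [← this]
            · intro i hi1 hi2
              rw [mem_filter] at hi1 hi2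
              have h1 : blkF i = p := Fin.ext hi1.2
              have h2 : B < n i := by
                by_contra h
                exact hi2 ⟨mem_univ _, h, h1⟩
              simp only [hw, h2, if_true]
    have P : ∀ p q : Fin (7 * b + 1), ∃ (F₀ : Family N₀ W₀)
        (idx : {i : Fin F.m // ¬ B < n i ∧ blkF i = p} ⊕ {i : Fin F.m // ¬ B < n i ∧ blkF i = q} →
          Fin F₀.m) (dec : Fin N₀ → Fin W),
        ∀ k l : {i : Fin F.m // ¬ B < n i ∧ blkF i = p} ⊕ {i : Fin F.m // ¬ B < n i ∧ blkF i = q},
        (F₀.sets (idx k) ∩ F₀.sets (idx l)).card =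
          (F.sets (Sum.elim Subtype.val Subtype.val k) ∩
            F.sets (Sum.elim Subtype.val Subtype.val l)).card ∧
        (F₀.sets (idx k) ∩ F₀.sets (idx l)).image (fun x : Fin W₀ => dec (md hN0 x)) =
          F.sets (Sum.elim Subtype.val Subtype.val k) ∩
            F.sets (Sum.elim Subtype.val Subtype.val l) := by
      intro p q
      refine pack hN0 hNW₀ hWp (fun k : {i : Fin F.m // ¬ B < n i ∧ blkF i = p} ⊕
        {i : Fin F.m // ¬ B < n i ∧ blkF i = q} => F.sets (Sum.elim Subtype.val Subtype.val k))
        (fun k => F.nonempty _) ?_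
      rw [Fintype.sum_sum_type]
      have h1 := hblkS p
      have h2 := hblkS q
      simp only [Sum.elim_inl, Sum.elim_inr]
      simp only [hn] at h1 h2
      omega
    choose F₀ idx dec hpack using P
    set idL : Fin F.m → Fin (7 * b + 1) → ℕ := fun i q =>
      if h : ¬ B < n i then (idx (blkF i) q (.inl ⟨i, h, rfl⟩) : ℕ) else 0 with hidL
    set idR : Fin F.m → Fin (7 * b + 1) → ℕ := fun j p =>
      if h : ¬ B < n j then (idx p (blkF j) (.inr ⟨j, h, rfl⟩) : ℕ) else 0 with hidR
    have hFW : ∀ p q (x : Fin (F₀ p q).m), (x : ℕ) < W := by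
      intro p q x
      have h1 := x.2
      have h2 := (F₀ p q).m_le
      omega
    have hidL1 : ∀ i q, idL i q < W := by
      intro i q
      by_cases h : B < n i
      · simp only [hidL, h, not_true_eq_false, dif_neg, not_false_eq_true]
        exact hWp
      · simp only [hidL, h, not_false_eq_true, dif_pos]
        exact hFW _ _ _
    have hidR1 : ∀ i q, idR i q < W := by
      intro i q
      by_cases h : B < n i
      · simp only [hidR, h, not_true_eq_false, dif_neg, not_false_eq_true]
        exact hWp
      · simp only [hidR, h, not_false_eq_true, dif_pos]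
        exact hFW _ _ _
    -- the arrays of the big sets
    have PA : ∀ x : Fin (7 * b), ∃ arr : ℕ → Fin W, ∀ i, un x = some i → ∀ j t, t < n j →
        ∀ ht : t < (F.sets i ∩ F.sets j).toList.length,
          arr (start n j + t) = (F.sets i ∩ F.sets j).toList[t] := by
      intro x
      rcases hux : un x with _ | i
      · exact ⟨fun _ => md hWp 0, fun i hi => by simp at hi⟩
      · obtain ⟨arr, ha⟩ := store (md hWp 0) n fun j t =>
          if h : t < (F.sets i ∩ F.sets j).toList.length then (F.sets i ∩ F.sets j).toList[t]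
            else md hWp 0
        refine ⟨arr, ?_⟩
        intro i' hi' j t ht ht'
        obtain rfl : i = i' := by simpa using hi'
        rw [ha j t ht, dif_pos ht']
    choose arrs harrs using PA
    set hdr : Fin (b * N₀) → Fin 3 → Fin W := fun x k =>
      if h : (x : ℕ) < F.m then
        (if k = 0 then (if B < n ⟨x, h⟩ then md hWp 1 else md hWp 0)
          else if k = 1 then (if B < n ⟨x, h⟩ then md hWp (rk ⟨x, h⟩) else md hWp (blk ⟨x, h⟩))
          else md hWp (start n ⟨x, h⟩))
      else md hWp 0 with hhdr
    set len : Fin (7 * b) → Fin (b * N₀) → Fin W := fun x y =>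
      match un x with
      | some i => if h : (y : ℕ) < F.m then md hWp (F.sets i ∩ F.sets ⟨y, h⟩).card else md hWp 0
      | none => md hWp 0 with hlen
    set idc : Fin 2 → Fin (b * N₀) → Fin (7 * b + 1) → Fin W := fun a y q =>
      if h : (y : ℕ) < F.m then (if a = 0 then md hWp (idL ⟨y, h⟩ q) else md hWp (idR ⟨y, h⟩ q))
      else md hWp 0 with hidc
    set mem : CellB (b * N₀) b N₀ ι₀ → Fin W := Sum.elim (fun x => hdr x.1 x.2)
      (Sum.elim (fun x => len x.1 x.2) (Sum.elim (fun x => arrs x.1 x.2)
        (Sum.elim (fun x => idc x.1 x.2.1 x.2.2)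
          (Sum.elim (fun x => md hWp (D₀.mem (F₀ x.1 x.2.1) x.2.2))
            (fun x => dec x.1 x.2.1 x.2.2))))) with hmem
    refine ⟨mem, ?_⟩
    intro i j
    have hiN : (i : ℕ) < b * N₀ := i.2.trans_le hm
    have hjN : (j : ℕ) < b * N₀ := j.2.trans_le hm
    have hH0 : ∀ i : Fin F.m, mem (cH (md hN i) 0) = if B < n i then md hWp 1 else md hWp 0 := by
      intro i
      simp only [hmem, Sum.elim_inl, hhdr, md_val hN (i.2.trans_le hm), i.2, dif_pos, if_true,
        Fin.eta]
    have hH1 : ∀ i : Fin F.m,
        mem (cH (md hN i) 1) = if B < n i then md hWp (rk i) else md hWp (blk i) := by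
      intro i
      simp only [hmem, Sum.elim_inl, hhdr, md_val hN (i.2.trans_le hm), i.2, dif_pos, if_true,
        Fin.eta, one_ne_zero, if_false]
    have hH2 : ∀ i : Fin F.m, (mem (cH (md hN i) 2) : ℕ) = start n i := by
      intro i
      have e1 : (2 : Fin 3) ≠ 0 := by decide
      have e2 : (2 : Fin 3) ≠ 1 := by decide
      simp only [hmem, Sum.elim_inl, hhdr, md_val hN (i.2.trans_le hm), i.2, dif_pos, e1, e2,
        Fin.eta, if_false]
      have := hsn i
      exact md_val hWp (by omega)
    -- the case of a big set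
    have big : ∀ i j : Fin F.m, B < n i →
        (mem (cLen (md hb7 (rk i)) (md hN j)) : ℕ) = (F.sets i ∩ F.sets j).card ∧
        ((List.range (F.sets i ∩ F.sets j).card).map fun t =>
          mem (cArr (md hb7 (rk i)) (md hN (start n j + t)))) = (F.sets i ∩ F.sets j).toList := by
      intro i j hi
      have hib : i ∈ bigs := mem_filter.2 ⟨mem_univ _, hi⟩
      have hu := hun1 i hib
      have hc : (F.sets i ∩ F.sets j).card ≤ n j := card_le_card inter_subset_right
      have hs := hsn j
      constructor
      · simp only [hmem, Sum.elim_inl, Sum.elim_inr, hlen, hu, md_val hN (j.2.trans_le hm), j.2,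
          dif_pos, Fin.eta]
        exact md_val hWp (by omega)
      · have := range_map (F.sets i ∩ F.sets j).toList
          (fun t => mem (cArr (md hb7 (rk i)) (md hN (start n j + t)))) (by
            intro t ht
            have ht' : t < (F.sets i ∩ F.sets j).card := by rwa [length_toList] at ht
            simp only [hmem, Sum.elim_inl, Sum.elim_inr]
            rw [md_val hN (show start n j + t < b * N₀ by omega)]
            exact harrs _ i hu j t (by omega) ht)
        rwa [length_toList] at this
    have h1W : (md hWp 1 : ℕ) = 1 := md_val hWp (by omega)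
    have h0W : (md hWp 0 : ℕ) = 0 := md_val hWp (by omega)
    have hbW : ∀ i, (md hWp (blk i) : ℕ) = blk i := fun i => md_val hWp (by
      have := hblk i; omega)
    have hrW : ∀ i, B < n i → (md hWp (rk i) : ℕ) = rk i := fun i hi => md_val hWp (by
      have := hrk1 i (mem_filter.2 ⟨mem_univ _, hi⟩); omega)
    by_cases hi : B < n i
    · obtain ⟨g1, g2⟩ := big i j hi
      constructor
      · simp only [queryB, run_bind, run_probe, hH0, hH1, hH2, hi, if_true, h1W, hrW i hi, g1,
          run_readList, run_out, List.map_map]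
        have g3 : ((List.range (F.sets i ∩ F.sets j).card).map
            (mem ∘ fun t => cArr (md hb7 (rk i)) (md hN (start n j + t)))) =
              (F.sets i ∩ F.sets j).toList := g2
        rw [g3]
        simp
      · simp only [queryB, cost_bind, run_probe, cost_probe, hH0, hH1, hH2, hi, if_true,
          h1W, hrW i hi, g1, run_readList, cost_readList, cost_out, List.length_map,
          List.length_range]
        have h3 : (C + 8) * (T + (F.sets i ∩ F.sets j).card) =
          C * (T + (F.sets i ∩ F.sets j).card) + 8 * T + 8 * (F.sets i ∩ F.sets j).card := by ring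
        omega
    · by_cases hj : B < n j
      · obtain ⟨g1, g2⟩ := big j i hj
        constructor
        · simp only [queryB, run_bind, run_probe, hH0, hH1, hH2, hi, hj, if_true, if_false, h1W,
            h0W, hrW j hj, g1, run_readList, run_out, List.map_map, zero_ne_one]
          have g3 : ((List.range (F.sets j ∩ F.sets i).card).map
              (mem ∘ fun t => cArr (md hb7 (rk j)) (md hN (start n i + t)))) =
                (F.sets j ∩ F.sets i).toList := g2
          rw [g3, inter_comm (F.sets i)]
          simp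
        · simp only [queryB, cost_bind, run_probe, cost_probe, hH0, hH1, hH2, hi, hj,
            if_true, if_false, h1W, h0W, hrW j hj, g1, run_readList, cost_readList, cost_out,
            List.length_map, List.length_range, zero_ne_one]
          rw [inter_comm (F.sets i)]
          have h3 : (C + 8) * (T + (F.sets j ∩ F.sets i).card) =
            C * (T + (F.sets j ∩ F.sets i).card) + 8 * T + 8 * (F.sets j ∩ F.sets i).card := by
            ring
          omega
      · have hmi : md (Nat.succ_pos (7 * b)) (blk i) = blkF i := md_eq _ (hblk i)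
        have hmj : md (Nat.succ_pos (7 * b)) (blk j) = blkF j := md_eq _ (hblk j)
        have k1 : (mem (cId 0 (md hN i) (blkF j)) : ℕ) =
            (idx (blkF i) (blkF j) (.inl ⟨i, hi, rfl⟩) : ℕ) := by
          simp only [hmem, Sum.elim_inl, Sum.elim_inr, hidc, md_val hN hiN, i.2, dif_pos, if_true,
            Fin.eta]
          rw [md_val hWp (hidL1 _ _)]
          simp only [hidL, hi, not_false_eq_true, dif_pos]
        have k2 : (mem (cId 1 (md hN j) (blkF i)) : ℕ) =
            (idx (blkF i) (blkF j) (.inr ⟨j, hj, rfl⟩) : ℕ) := by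
          simp only [hmem, Sum.elim_inl, Sum.elim_inr, hidc, md_val hN hjN, j.2, dif_pos,
            Fin.eta, one_ne_zero, if_false]
          rw [md_val hWp (hidR1 _ _)]
          simp only [hidR, hj, not_false_eq_true, dif_pos]
        obtain ⟨g1, g2⟩ := hpack (blkF i) (blkF j) (.inl ⟨i, hi, rfl⟩) (.inr ⟨j, hj, rfl⟩)
        obtain ⟨s1, s2⟩ := sub_spec hN0 hW0 D₀ h₀ (fun c => cStr (blkF i) (blkF j) c)
          (fun y => cRen (blkF i) (blkF j) y) mem (F₀ (blkF i) (blkF j)) (dec (blkF i) (blkF j))
          (by
            intro c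
            simp only [hmem, Sum.elim_inl, Sum.elim_inr]
            have h3 : ((D₀.mem (F₀ (blkF i) (blkF j)) c : Fin W₀) : ℕ) < W :=
              lt_of_lt_of_le (D₀.mem (F₀ (blkF i) (blkF j)) c).2 hWW
            rw [md_val hWp h3]
            exact md_fin hW0 _)
          (by
            intro y
            simp only [hmem, Sum.elim_inr]) _ _ (F.sets i ∩ F.sets j) g1 g2
        constructor
        · simp only [queryB, run_bind, run_probe, hH0, hH1, hi, hj, if_false, h0W, hbW,
            zero_ne_one, hmi, hmj, k1, k2]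
          exact s1
        · simp only [queryB, cost_bind, run_probe, cost_probe, hH0, hH1, hi, hj, if_false, h0W,
            hbW, zero_ne_one, hmi, hmj, k1, k2]
          have h3 : (C + 8) * (T + (F.sets i ∩ F.sets j).card) =
            C * (T + (F.sets i ∩ F.sets j).card) + 8 * T + 8 * (F.sets i ∩ F.sets j).card := by
            ring
          omega
  choose mem hmem using key
  exact ⟨⟨mem, fun i j => queryB hN hb7 hN0 hW0 D₀ i j⟩, hmem⟩

end Pool.Agent.N606.SI
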