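import Mathlib

/-!
# SetIntersection in the cell probe model

Families of sets, adaptive query algorithms and data structures.
-/

set_option autoImplicit false

namespace Pool.Agent.N606.SI

/-- A family of `m` nonempty sets of words, of total size `N`; a word is a number less than `W`. -/
structure Family (N W : ℕ) where
  m : ℕ
  sets : Fin m → Finset (Fin W)
  nonempty : ∀ i, (sets i).Nonempty
  total : ∑ i, (sets i).card = N

/-- An adaptive algorithm on a memory whose cells have the addresses `ι` and contain words (numbers
less than `W`): it stops with an output, or reads a cell and continues depending on its content. -/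
inductive Alg (ι : Type) (W : ℕ) (α : Type) : Type
  | out (a : α) : Alg ι W α
  | read (c : ι) (next : Fin W → Alg ι W α) : Alg ι W α

/-- The output of an algorithm on the memory `mem`. -/
def Alg.run {ι : Type} {W : ℕ} {α : Type} (mem : ι → Fin W) : Alg ι W α → α
  | .out a => a
  | .read c next => (next (mem c)).run mem

/-- The number of cells read by an algorithm on the memory `mem`. -/
def Alg.cost {ι : Type} {W : ℕ} {α : Type} (mem : ι → Fin W) : Alg ι W α → ℕ
  | .out _ => 0
  | .read c next => (next (mem c)).cost mem + 1

/-- A data structure for families of total size `N` with cells `ι`: the content of the memory as a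
function of the family and the algorithm for the query which names the sets number `i` and `j`. -/
structure DS (ι : Type) (N W : ℕ) where
  mem : Family N W → ι → Fin W
  query : ℕ → ℕ → Alg ι W (Finset (Fin W))

/-- All queries are answered correctly with at most `C (T + op)` probes, where `op` is the size of the
output. -/
def DS.Solves {ι : Type} {N W : ℕ} (D : DS ι N W) (C T : ℕ) : Prop :=
  ∀ (F : Family N W) (i j : Fin F.m),
    (D.query i j).run (D.mem F) = F.sets i ∩ F.sets j ∧
      (D.query i j).cost (D.mem F) ≤ C * (T + (F.sets i ∩ F.sets j).card)

/-- The number of words: words have `β (⌈log₂ N⌉ + 3)` bits. -/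
def words (β N : ℕ) : ℕ := 2 ^ (β * (Nat.clog 2 N + 3))

/-- There is a data structure for families of total size `N` with `S` cells and query time
`C (T + op)`. -/
def HasStructure (β C N T S : ℕ) : Prop :=
  ∃ D : DS (Fin S) N (words β N), D.Solves C T

/-- The conjectured bound `S = Ω~(N ^ 2 / T)` for the query time `T` and total sizes in `A`. -/
def Tradeoff (A : Set ℕ) (T : ℕ → ℕ) : Prop :=
  ∀ β C : ℕ, 1 ≤ β → ∃ c N₀ : ℕ, ∀ N ∈ A, N₀ ≤ N → ∀ S : ℕ, HasStructure β C N (T N) S →
    (N : ℝ) ^ 2 ≤ S * T N * Real.log N ^ c

end Pool.Agent.N606.SI
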