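import Pool.Agent.N606.SI.Transfer

set_option autoImplicit false

namespace Pool.Agent.N606.SI

theorem clog_le {M : ℕ} (hL : 8 ≤ Real.log M) :
    ((Nat.clog 2 M + 3 : ℕ) : ℝ) ≤ 2 * Real.log M := by
  have hM : 1 < M := by
    by_contra hM
    have h1 : M = 0 ∨ M = 1 := by omega
    rcases h1 with h1 | h1 <;> subst h1 <;> norm_num at hL
  have h1 := Nat.pow_pred_clog_lt_self (b := 2) (by norm_num) hM
  have h2 : ((2 : ℝ) ^ (Nat.clog 2 M).pred) ≤ M := by exact_mod_cast h1.le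
  have h3 := Real.log_le_log (by positivity) h2
  rw [Real.log_pow] at h3
  have h4 : (Nat.clog 2 M : ℝ) ≤ ((Nat.clog 2 M).pred : ℕ) + 1 := by
    have : Nat.clog 2 M ≤ (Nat.clog 2 M).pred + 1 := by
      rw [Nat.pred_eq_sub_one]; omega
    exact_mod_cast this
  have h5 := Real.log_two_gt_d9
  push_cast
  nlinarith [Nat.cast_nonneg (α := ℝ) (Nat.clog 2 M).pred]

theorem oneExponent {A : Set ℕ} {K : ℕ} {δ : ℝ} {Tstar : ℕ → ℕ}
    (hA : ∃ x₀ : ℕ, ∀ x ≥ x₀, ∃ N ∈ A, x ≤ N ∧ N ≤ x ^ K) (hδ : 0 < δ)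
    (hT : ∀ N ∈ A, (N : ℝ) ^ δ ≤ Tstar N ∧ Tstar N * (N : ℝ) ^ δ ≤ N) (h : Tradeoff A Tstar)
    (T : ℕ → ℕ) (hT1 : ∀ N, 1 ≤ T N) : Tradeoff Set.univ T := by
  intro β C hβ
  obtain ⟨c, N₁, hc⟩ := h β (4 * C + 60) hβ
  obtain ⟨x₀, hx₀⟩ := hA
  obtain ⟨k, hk⟩ := exists_nat_ge (1 / δ)
  have hkδ : 1 ≤ k * δ := by
    rwa [div_le_iff₀ hδ] at hk
  have hk1 : 1 ≤ k := by
    rcases Nat.eq_zero_or_pos k with h0 | h0
    · subst h0; norm_num at hkδ
    · exact h0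
  set X : ℝ := 8 + 19680 * β * (k * K) ^ c + 5 * β with hX
  obtain ⟨M₀, hM₀⟩ := exists_nat_ge (Real.exp X)
  refine ⟨c + 2, M₀ + x₀ + N₁ + 4, ?_⟩
  intro M _ hM S hS
  have hMe : Real.exp X ≤ M := hM₀.trans (by exact_mod_cast (by omega : M₀ ≤ M))
  have hMpos : (0 : ℝ) < M := by
    exact_mod_cast (by omega : 0 < M)
  have hL : X ≤ Real.log M := by
    rw [Real.le_log_iff_exp_le hMpos]; exact hMe
  set L := Real.log M with hLdef
  have hβ0 : (1 : ℝ) ≤ β := by exact_mod_cast hβ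
  have hkc : (0 : ℝ) ≤ ((k : ℝ) * K) ^ c := by positivity
  have hL8 : 8 ≤ L := by
    have : 0 ≤ 19680 * β * ((k : ℝ) * K) ^ c := by positivity
    linarith
  have hL5 : 5 * β ≤ L := by
    have : 0 ≤ 19680 * β * ((k : ℝ) * K) ^ c := by positivity
    linarith
  have hLc : 19680 * β * ((k : ℝ) * K) ^ c ≤ L := by linarith
  -- the information bound
  have hinfo := info' hβ (by omega) hS
  have hS1 : 1 ≤ S := by
    rcases Nat.eq_zero_or_pos S with h0 | h0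
    · subst h0
      rw [Nat.mul_zero] at hinfo
      omega
    · exact h0
  have hS1' : (1 : ℝ) ≤ S := by exact_mod_cast hS1
  have hMS : (M : ℝ) ≤ 5 * β * L * S := by
    have h1 : M ≤ 2 * (β * (Nat.clog 2 M + 3) * S) + 3 := by omega
    have h2 : (M : ℝ) ≤ 2 * (β * ((Nat.clog 2 M + 3 : ℕ) : ℝ) * S) + 3 := by exact_mod_cast h1
    have h3 := clog_le hL8
    have h4 : β * ((Nat.clog 2 M + 3 : ℕ) : ℝ) * S ≤ β * (2 * L) * S := by gcongr
    have h5 : 3 ≤ β * L * S := by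
      calc (3 : ℝ) ≤ 1 * 8 * 1 := by norm_num
        _ ≤ β * L * S := by gcongr
    calc (M : ℝ) ≤ 2 * (β * ((Nat.clog 2 M + 3 : ℕ) : ℝ) * S) + 3 := h2
      _ ≤ 2 * (β * (2 * L) * S) + β * L * S := by gcongr
      _ = 5 * β * L * S := by ring
  have hL0 : 0 ≤ L := by linarith
  have hL1 : 1 ≤ L := by linarith
  by_cases hTM : T M ≤ M
  · -- the transfer
    have hMk : x₀ ≤ M ^ k := by
      calc x₀ ≤ M := by omega
        _ ≤ M ^ k := Nat.le_self_pow (by omega) M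
    obtain ⟨N, hNA, hN1, hN2⟩ := hx₀ (M ^ k) hMk
    rw [← pow_mul] at hN2
    have hMN : M ≤ N := (Nat.le_self_pow (by omega) M).trans hN1
    obtain ⟨hTa, hTb⟩ := hT N hNA
    have hNδ : (M : ℝ) ≤ (N : ℝ) ^ δ := by
      calc (M : ℝ) = (M : ℝ) ^ (1 : ℝ) := (Real.rpow_one _).symm
        _ ≤ (M : ℝ) ^ (k * δ) := Real.rpow_le_rpow_of_exponent_le
            (by exact_mod_cast (by omega : 1 ≤ M)) hkδ
        _ = ((M : ℝ) ^ k) ^ δ := by rw [Real.rpow_mul hMpos.le, Real.rpow_natCast]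
        _ ≤ (N : ℝ) ^ δ := Real.rpow_le_rpow (by positivity) (by exact_mod_cast hN1) hδ.le
    have hMT : M ≤ Tstar N := by exact_mod_cast hNδ.trans hTa
    have hMTN : M * Tstar N ≤ N := by
      have : (M : ℝ) * Tstar N ≤ N := by
        calc (M : ℝ) * Tstar N ≤ (N : ℝ) ^ δ * Tstar N := by gcongr
          _ = Tstar N * (N : ℝ) ^ δ := mul_comm _ _
          _ ≤ N := hTb
      exact_mod_cast this
    obtain ⟨S', hS', hbound⟩ := transfer (T₁ := Tstar N) (N := N) hβ (by omega) (hT1 M)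
      (hTM.trans hMT) (hMTN.trans (Nat.le_mul_of_pos_right _ (hT1 M))) hS
    have h1 := hc N hNA (by omega) S' hS'
    have hNpos : (0 : ℝ) < N := by exact_mod_cast (by omega : 0 < N)
    have hlogN : Real.log N ≤ k * K * L := by
      have h2 : (N : ℝ) ≤ (M : ℝ) ^ (k * K) := by exact_mod_cast hN2
      have h3 := Real.log_le_log hNpos h2
      rw [Real.log_pow] at h3
      push_cast at h3
      exact h3
    have hlogN0 : 0 ≤ Real.log N := Real.log_natCast_nonneg N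
    have hb' : (S' : ℝ) * Tstar N * M ^ 2 ≤ 3280 * N ^ 2 * T M * (S + M) := by
      exact_mod_cast hbound
    have h4 : (N : ℝ) ^ 2 * M ^ 2 ≤ (N : ℝ) ^ 2 * (3280 * T M * (S + M) * (k * K * L) ^ c) := by
      calc (N : ℝ) ^ 2 * M ^ 2 ≤ (S' * Tstar N * Real.log N ^ c) * M ^ 2 := by gcongr
        _ = (S' * Tstar N * M ^ 2) * Real.log N ^ c := by ring
        _ ≤ (3280 * N ^ 2 * T M * (S + M)) * (k * K * L) ^ c := by gcongr
        _ = (N : ℝ) ^ 2 * (3280 * T M * (S + M) * (k * K * L) ^ c) := by ring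
    have h5 : (M : ℝ) ^ 2 ≤ 3280 * T M * (S + M) * (k * K * L) ^ c :=
      le_of_mul_le_mul_left h4 (by positivity)
    have h6 : (S : ℝ) + M ≤ 6 * β * L * S := by
      have : (S : ℝ) ≤ β * L * S := by
        have : 1 ≤ (β : ℝ) * L := by nlinarith
        nlinarith
      linarith
    calc (M : ℝ) ^ 2 ≤ 3280 * T M * (S + M) * (k * K * L) ^ c := h5
      _ ≤ 3280 * T M * (6 * β * L * S) * (k * K * L) ^ c := by gcongr
      _ = (19680 * β * (k * K) ^ c) * (S * T M * L ^ (c + 1)) := by ring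
      _ ≤ L * (S * T M * L ^ (c + 1)) := by gcongr
      _ = S * T M * L ^ (c + 2) := by ring
  · have hTM' : (M : ℝ) ≤ T M := by exact_mod_cast (by omega : M ≤ T M)
    calc (M : ℝ) ^ 2 = M * M := by ring
      _ ≤ T M * (5 * β * L * S) := by gcongr
      _ = (5 * β) * (S * T M * L) := by ring
      _ ≤ L * (S * T M * L) := by gcongr
      _ = S * T M * L ^ 2 := by ring
      _ ≤ S * T M * L ^ (c + 2) := by
          gcongr
          omega

/-- The total sizes `4, 16, 256, 65536, …`. -/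
def towers : Set ℕ := Set.range fun n : ℕ => 4 ^ 2 ^ n

theorem sqrt_tower (n : ℕ) : Nat.sqrt (4 ^ 2 ^ n) = 2 ^ 2 ^ n := by
  have : 4 ^ 2 ^ n = 2 ^ 2 ^ n * 2 ^ 2 ^ n := by
    rw [← mul_pow]
    norm_num
  rw [this, Nat.sqrt_eq]

theorem exists_tower {x : ℕ} (hx : 4 ≤ x) : ∃ N ∈ towers, x ≤ N ∧ N ≤ x ^ 2 := by
  classical
  have hex : ∃ n : ℕ, x ≤ 4 ^ 2 ^ n := by
    refine ⟨x, ?_⟩
    calc x ≤ 2 ^ x := Nat.lt_two_pow_self.le
      _ ≤ 4 ^ 2 ^ x := Nat.pow_le_pow_left (by norm_num) _ |>.trans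
          (Nat.pow_le_pow_right (by norm_num) Nat.lt_two_pow_self.le)
  refine ⟨4 ^ 2 ^ Nat.find hex, ⟨_, rfl⟩, Nat.find_spec hex, ?_⟩
  rcases Nat.eq_zero_or_pos (Nat.find hex) with h0 | h0
  · rw [h0]
    norm_num
    nlinarith
  · have h1 := Nat.find_min hex (m := Nat.find hex - 1) (by omega)
    have h2 : 4 ^ 2 ^ Nat.find hex = (4 ^ 2 ^ (Nat.find hex - 1)) ^ 2 := by
      rw [← pow_mul, ← pow_succ]
      congr 2
      omega
    rw [h2]
    exact Nat.pow_le_pow_left (by omega) 2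

/-- One exponent suffices, as an equivalence. -/
theorem oneExponent_iff {A : Set ℕ} {K : ℕ} {δ : ℝ} {Tstar : ℕ → ℕ}
    (hA : ∃ x₀ : ℕ, ∀ x ≥ x₀, ∃ N ∈ A, x ≤ N ∧ N ≤ x ^ K) (hδ : 0 < δ)
    (hT : ∀ N ∈ A, (N : ℝ) ^ δ ≤ Tstar N ∧ Tstar N * (N : ℝ) ^ δ ≤ N) :
    (∀ T : ℕ → ℕ, (∀ N, 1 ≤ T N) → Tradeoff Set.univ T) ↔ Tradeoff A Tstar := by
  constructor
  · intro h β C hβ
    obtain ⟨c, N₀, hc⟩ := h (fun N => max 1 (Tstar N)) (fun N => le_max_left _ _) β C hβ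
    refine ⟨c, N₀ + 1, ?_⟩
    intro N hNA hN S hS
    have e : max 1 (Tstar N) = Tstar N := by
      apply max_eq_right
      have h1 : (0 : ℝ) < (N : ℝ) ^ δ :=
        Real.rpow_pos_of_pos (by exact_mod_cast (by omega : 0 < N)) _
      have h2 : (0 : ℝ) < Tstar N := h1.trans_le (hT N hNA).1
      exact_mod_cast h2
    have h1 := hc N (Set.mem_univ _) (by omega) S
    simp only [e] at h1
    exact h1 hS
  · intro h T hT1
    exact oneExponent hA hδ hT h T hT1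

theorem iff_sqrt : (∀ T : ℕ → ℕ, (∀ N, 1 ≤ T N) → Tradeoff Set.univ T) ↔
    Tradeoff towers Nat.sqrt := by
  constructor
  · intro h β C hβ
    obtain ⟨c, N₀, hc⟩ := h (fun N => max 1 (Nat.sqrt N)) (fun N => le_max_left _ _) β C hβ
    refine ⟨c, N₀, ?_⟩
    rintro N ⟨n, rfl⟩ hN S hS
    have e : max 1 (Nat.sqrt (4 ^ 2 ^ n)) = Nat.sqrt (4 ^ 2 ^ n) := by
      apply max_eq_right
      rw [sqrt_tower]
      exact Nat.one_le_two_pow
    have h1 := hc (4 ^ 2 ^ n) (Set.mem_univ _) hN S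
    simp only [e] at h1
    exact h1 hS
  · intro h T hT
    refine oneExponent (A := towers) (K := 2) (δ := 1 / 2) ⟨4, fun x hx => exists_tower hx⟩
      (by norm_num) ?_ h T hT
    rintro N ⟨n, rfl⟩
    have e : (((4 : ℕ) ^ 2 ^ n : ℕ) : ℝ) ^ (1 / 2 : ℝ) = ((2 ^ 2 ^ n : ℕ) : ℝ) := by
      have h1 : (((4 : ℕ) ^ 2 ^ n : ℕ) : ℝ) = ((2 ^ 2 ^ n : ℕ) : ℝ) ^ (2 : ℝ) := by
        rw [Real.rpow_two]
        push_cast
        rw [← pow_mul, mul_comm, pow_mul]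
        norm_num
      rw [h1, ← Real.rpow_mul (by positivity)]
      norm_num
    simp only [sqrt_tower]
    rw [e]
    refine ⟨le_rfl, ?_⟩
    rw [← Nat.cast_mul, Nat.cast_le, ← mul_pow]
    norm_num

end Pool.Agent.N606.SI
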