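import Pool.Agent.N606.SI.Alg

set_option autoImplicit false

namespace Pool.Agent.N606.SI

open Finset

/-- A system of nonempty sets of total size at most `N₀` is part of a family of total size `N₀` over
the universe of the words less than `W₀`, up to a translation of the elements. -/
theorem pack {N₀ W₀ W : ℕ} (hN : 0 < N₀) (hW : N₀ ≤ W₀) (hW' : 0 < W) {κ : Type} [Fintype κ]
    (G : κ → Finset (Fin W)) (hne : ∀ k, (G k).Nonempty) (hsum : ∑ k, (G k).card ≤ N₀) :
    ∃ (F : Family N₀ W₀) (idx : κ → Fin F.m) (dec : Fin N₀ → Fin W), ∀ k l,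
      (F.sets (idx k) ∩ F.sets (idx l)).card = (G k ∩ G l).card ∧
      (F.sets (idx k) ∩ F.sets (idx l)).image (fun x : Fin W₀ => dec (md hN x)) = G k ∩ G l := by
  classical
  set U : Finset (Fin W) := univ.biUnion G with hU
  have hUcard : U.card ≤ N₀ := card_biUnion_le.trans hsum
  set e : U ≃ Fin U.card := U.equivFin with he
  have hpos : 0 < W₀ := lt_of_lt_of_le hN hW
  set enc : Fin W → Fin W₀ := fun x =>
    if h : x ∈ U then ⟨e ⟨x, h⟩, lt_of_lt_of_le (e ⟨x, h⟩).2 (hUcard.trans hW)⟩ else ⟨0, hpos⟩
    with henc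
  set dec : Fin N₀ → Fin W := fun y =>
    if h : (y : ℕ) < U.card then (e.symm ⟨y, h⟩ : Fin W) else ⟨0, hW'⟩ with hdec
  have hinj : Set.InjOn enc U := by
    intro x hx y hy hxy
    have hx' : x ∈ U := hx
    have hy' : y ∈ U := hy
    simp only [henc, hx', hy', dif_pos, Fin.mk.injEq] at hxy
    have h1 := e.injective (Fin.ext hxy)
    exact congrArg Subtype.val h1
  have hed : ∀ x ∈ U, dec (md hN (enc x)) = x := by
    intro x hx
    have h1 : (enc x : ℕ) = e ⟨x, hx⟩ := by simp only [henc, hx, dif_pos]
    have h2 : (enc x : ℕ) < U.card := by rw [h1]; exact (e ⟨x, hx⟩).2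
    have h3 : md hN (enc x) = ⟨(enc x : ℕ), lt_of_lt_of_le h2 hUcard⟩ := md_eq hN _
    rw [h3]
    simp only [hdec, h2, dif_pos]
    have h4 : (⟨(enc x : ℕ), h2⟩ : Fin U.card) = e ⟨x, hx⟩ := Fin.ext h1
    rw [h4, Equiv.symm_apply_apply]
  have hsub : ∀ k, G k ⊆ U := fun k => subset_biUnion_of_mem G (mem_univ k)
  set s : ℕ := N₀ - ∑ k, (G k).card with hs
  set kk : κ ≃ Fin (Fintype.card κ) := Fintype.equivFin κ with hkk
  set sets : Fin (Fintype.card κ + s) → Finset (Fin W₀) :=
    Fin.append (fun a => (G (kk.symm a)).image enc) (fun _ => {⟨0, hpos⟩}) with hsets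
  have hcard : ∀ k, ((G k).image enc).card = (G k).card := fun k =>
    card_image_of_injOn (hinj.mono (by exact_mod_cast hsub k))
  have hidx : ∀ k, sets (Fin.castAdd s (kk k)) = (G k).image enc := by
    intro k
    simp only [hsets, Fin.append_left, Equiv.symm_apply_apply]
  refine ⟨⟨Fintype.card κ + s, sets, ?_, ?_⟩, fun k => Fin.castAdd s (kk k), dec, ?_⟩
  · intro i
    refine Fin.addCases (fun a => ?_) (fun a => ?_) i
    · simp only [hsets, Fin.append_left]
      exact (hne _).image _
    · simp only [hsets, Fin.append_right]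
      exact singleton_nonempty _
  · rw [Fin.sum_univ_add]
    simp only [hsets, Fin.append_left, Fin.append_right, card_singleton, sum_const, card_univ,
      Fintype.card_fin, smul_eq_mul, mul_one]
    have h1 : ∑ a : Fin (Fintype.card κ), ((G (kk.symm a)).image enc).card = ∑ k, (G k).card := by
      rw [← Equiv.sum_comp kk.symm fun k => (G k).card]
      exact sum_congr rfl fun a _ => hcard _
    rw [h1]
    omega
  · intro k l
    simp only [hidx]
    have h1 : (G k).image enc ∩ (G l).image enc = (G k ∩ G l).image enc := by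
      rw [← image_inter_of_injOn]
      refine hinj.mono ?_
      intro x hx
      rcases hx with hx | hx
      · exact hsub k hx
      · exact hsub l hx
    have h2 : G k ∩ G l ⊆ U := inter_subset_left.trans (hsub k)
    constructor
    · rw [h1]
      exact card_image_of_injOn (hinj.mono (by exact_mod_cast h2))
    · rw [h1, image_image]
      ext x
      simp only [mem_image, Function.comp_apply]
      constructor
      · rintro ⟨y, hy, rfl⟩
        rw [hed y (h2 hy)]
        exact hy
      · intro hx
        exact ⟨x, hx, hed x (h2 hx)⟩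

/-- starting positions of consecutive segments -/
def start {m : ℕ} (n : Fin m → ℕ) (i : Fin m) : ℕ := ∑ j ∈ univ.filter (· < i), n j

theorem start_add_le {m : ℕ} (n : Fin m → ℕ) {i j : Fin m} (h : i < j) :
    start n i + n i ≤ start n j := by
  classical
  have h1 : start n i + n i = ∑ k ∈ insert i (univ.filter (· < i)), n k := by
    rw [sum_insert (by simp)]
    unfold start; omega
  rw [h1]
  refine sum_le_sum_of_subset ?_
  intro k hk
  rcases mem_insert.1 hk with rfl | hk
  · simp [h]
  · simp only [mem_filter, mem_univ, true_and] at hk ⊢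
    exact hk.trans h

theorem start_add_le_total {m : ℕ} (n : Fin m → ℕ) (i : Fin m) : start n i + n i ≤ ∑ j, n j := by
  classical
  have h1 : start n i + n i = ∑ k ∈ insert i (univ.filter (· < i)), n k := by
    rw [sum_insert (by simp)]
    unfold start; omega
  rw [h1]
  exact sum_le_sum_of_subset (subset_univ _)

/-- storing finite sequences in one array -/
theorem store {m : ℕ} {X : Type} (x₀ : X) (n : Fin m → ℕ) (R : Fin m → ℕ → X) :
    ∃ arr : ℕ → X, ∀ i t, t < n i → arr (start n i + t) = R i t := by
  classical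
  refine ⟨fun x => if h : ∃ p : Fin m × ℕ, p.2 < n p.1 ∧ x = start n p.1 + p.2 then
    R h.choose.1 h.choose.2 else x₀, ?_⟩
  intro i t ht
  have hex : ∃ p : Fin m × ℕ, p.2 < n p.1 ∧ start n i + t = start n p.1 + p.2 := ⟨(i, t), ht, rfl⟩
  beta_reduce
  rw [dif_pos hex]
  obtain ⟨h1, h2⟩ := hex.choose_spec
  set p := hex.choose with hp
  have h3 : p.1 = i := by
    rcases lt_trichotomy p.1 i with h | h | h
    · have := start_add_le n h
      omega
    · exact h
    · have := start_add_le n h
      omega
  have h4 : p.2 = t := by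
    rw [h3] at h2
    omega
  rw [h3, h4]

/-- dividing a linear order into intervals of small weight -/
theorem bins {α : Type} [Fintype α] [LinearOrder α] (w : α → ℕ) (B : ℕ) (hB : 0 < B)
    (hw : ∀ a, w a ≤ B) : ∃ f : α → ℕ, (∀ a, f a ≤ (∑ x, w x) / B) ∧
      ∀ p, ∑ a ∈ univ.filter (fun a => f a = p), w a ≤ 2 * B := by
  classical
  set pre : α → ℕ := fun a => ∑ x ∈ univ.filter (· < a), w x with hpre
  refine ⟨fun a => pre a / B, fun a => Nat.div_le_div_right (sum_le_sum_of_subset (subset_univ _)),
    ?_⟩
  intro p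
  rcases (univ.filter (fun a => pre a / B = p)).eq_empty_or_nonempty with h0 | h0
  · rw [h0]; simp
  set s := univ.filter (fun a => pre a / B = p) with hs
  have hmax := s.max'_mem h0
  have hmin := s.min'_mem h0
  set u := s.max' h0
  set v := s.min' h0
  have h1 : ∀ a ∈ s, pre a / B = p := fun a ha => (mem_filter.1 ha).2
  have h2 : pre u < (p + 1) * B := by
    have := h1 u hmax
    have h3 := Nat.lt_div_mul_add hB (a := pre u)
    rw [this] at h3
    linarith
  have h3 : p * B ≤ pre v := by
    have := h1 v hmin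
    rw [← this]
    exact Nat.div_mul_le_self _ _
  have h4 : ∑ a ∈ s, w a + pre v ≤ pre u + w u := by
    have e1 : pre u + w u = ∑ x ∈ insert u (univ.filter (· < u)), w x := by
      rw [sum_insert (by simp)]; simp only [hpre]; omega
    have e2 : ∑ a ∈ s, w a + pre v = ∑ x ∈ s ∪ univ.filter (· < v), w x := by
      rw [sum_union]
      rw [disjoint_left]
      intro a ha hb
      have := s.min'_le a ha
      exact absurd (mem_filter.1 hb).2 (not_lt.2 this)
    rw [e1, e2]
    refine sum_le_sum_of_subset ?_
    intro a ha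
    rcases mem_union.1 ha with ha | ha
    · rcases (s.le_max' a ha).lt_or_eq with h | h
      · exact mem_insert_of_mem (mem_filter.2 ⟨mem_univ _, h⟩)
      · rw [h]; exact mem_insert_self _ _
    · have : v ≤ u := s.min'_le _ hmax
      exact mem_insert_of_mem (mem_filter.2 ⟨mem_univ _, (mem_filter.1 ha).2.trans_le this⟩)
  have h5 := hw u
  have h6 : (p + 1) * B = p * B + B := by ring
  omega

end Pool.Agent.N606.SI
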