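import Pool.Agent.N606.SI.Sub

set_option autoImplicit false

namespace Pool.Agent.N606.SI

open Finset Alg

/-- The cells: a header with three words for each set, three arrays, `3 r + 1` data structures and
`3 r + 1` tables for the translation of the elements. -/
abbrev CellA (N r N₀ : ℕ) (ι₀ : Type) : Type :=
  (Fin N × Fin 3) ⊕ ((Fin 3 × Fin N) ⊕ ((Fin (3 * r + 1) × ι₀) ⊕ (Fin (3 * r + 1) × Fin N₀)))

open Classical in
/-- look up in a list of pairs -/
noncomputable def look (L : List (ℕ × ℕ)) (p : ℕ) : Option ℕ :=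
  if h : ∃ l, (p, l) ∈ L then some h.choose else none

theorem look_some {L : List (ℕ × ℕ)} {p v : ℕ} (h : ∀ l, (p, l) ∈ L ↔ l = v) :
    look L p = some v := by
  have hex : ∃ l, (p, l) ∈ L := ⟨v, (h v).2 rfl⟩
  rw [look, dif_pos hex]
  exact congrArg some ((h _).1 hex.choose_spec)

theorem look_none {L : List (ℕ × ℕ)} {p : ℕ} (h : ∀ l, (p, l) ∉ L) : look L p = none := by
  rw [look, dif_neg]
  rintro ⟨l, hl⟩
  exact h l hl

/-- read the list of the parts with the local numbers, and the list of the high elements -/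
def infoA {N r N₀ W : ℕ} {ι₀ : Type} (hN : 0 < N) (i : ℕ) :
    Alg (CellA N r N₀ ι₀) W (List (ℕ × ℕ) × List (Fin W)) :=
  (probe (.inl (md hN i, 0))).bind fun s => (probe (.inl (md hN i, 1))).bind fun a =>
  (probe (.inl (md hN i, 2))).bind fun h =>
  (readList ((List.range a).map fun t => .inr (.inl (0, md hN (s + t))))).bind fun ps =>
  (readList ((List.range a).map fun t => .inr (.inl (1, md hN (s + t))))).bind fun ls =>
  (readList ((List.range h).map fun t => .inr (.inl (2, md hN (s + t))))).bind fun hs =>
  .out ((ps.zip ls).map (fun x => ((x.1 : ℕ), (x.2 : ℕ))), hs)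

/-- the query algorithm -/
noncomputable def queryA {N r N₀ W₀ W : ℕ} {ι₀ : Type} (hN : 0 < N) (hN₀ : 0 < N₀) (hW₀ : 0 < W₀)
    (D₀ : DS ι₀ N₀ W₀) (i j : ℕ) : Alg (CellA N r N₀ ι₀) W (Finset (Fin W)) :=
  (infoA hN i).bind fun I => (infoA hN j).bind fun J =>
  (unionFin fun p : Fin (3 * r + 1) => match look I.1 p, look J.1 p with
    | some l, some l' => sub hN₀ hW₀ D₀ (fun c => .inr (.inr (.inl (p, c))))
        (fun y => .inr (.inr (.inr (p, y)))) l l'
    | _, _ => .out ∅).bind fun R => .out (R ∪ (I.2.toFinset ∩ J.2.toFinset))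

theorem infoA_spec {N r N₀ W : ℕ} {ι₀ : Type} (hN : 0 < N) (i s : ℕ)
    (mem : CellA N r N₀ ι₀ → Fin W) (Qs : List (ℕ × ℕ)) (Hs : List (Fin W))
    (h0 : (mem (.inl (md hN i, 0)) : ℕ) = s) (h1 : (mem (.inl (md hN i, 1)) : ℕ) = Qs.length)
    (h2 : (mem (.inl (md hN i, 2)) : ℕ) = Hs.length)
    (h3 : ∀ t (ht : t < Qs.length), (mem (.inr (.inl (0, md hN (s + t)))) : ℕ) = (Qs[t]).1)
    (h4 : ∀ t (ht : t < Qs.length), (mem (.inr (.inl (1, md hN (s + t)))) : ℕ) = (Qs[t]).2)
    (h5 : ∀ t (ht : t < Hs.length), mem (.inr (.inl (2, md hN (s + t)))) = Hs[t]) :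
    (infoA hN i : Alg (CellA N r N₀ ι₀) W _).run mem = (Qs, Hs) ∧
      (infoA hN i : Alg (CellA N r N₀ ι₀) W _).cost mem = 3 + 2 * Qs.length + Hs.length := by
  constructor
  · simp only [infoA, run_bind, run_probe, run_readList, run_out, h0, h1, h2, List.map_map,
      Prod.mk.injEq]
    constructor
    · apply List.ext_getElem
      · simp
      · intro t e1 e2
        simp only [List.getElem_map, List.getElem_zip, List.getElem_range, Function.comp_apply,
          h3 t e2, h4 t e2]
    · exact range_map Hs _ h5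
  · simp only [infoA, run_probe, run_readList, cost_bind, cost_probe, cost_readList,
      cost_out, h0, h1, h2, List.length_map, List.length_range]
    ring

theorem splitUniverse {ι₀ : Type} {N₀ W₀ W C T r : ℕ} (hN₀ : 2 ≤ N₀) (hr : 1 ≤ r)
    (hNW₀ : N₀ ≤ W₀) (hWW : W₀ ≤ W) (hW : 2 * (r * N₀) ≤ W) (hT : 1 ≤ T)
    (D₀ : DS ι₀ N₀ W₀) (h₀ : D₀.Solves C T) :
    ∃ D : DS (CellA (r * N₀) r N₀ ι₀) (r * N₀) W, D.Solves (4 * C + 28) (r * T) := by
  classical
  have hN0 : 0 < N₀ := by omega
  have hN : 0 < r * N₀ := Nat.mul_pos (by omega) hN0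
  have hW0 : 0 < W₀ := by omega
  have hWp : 0 < W := by omega
  have key : ∀ F : Family (r * N₀) W, ∃ mem : CellA (r * N₀) r N₀ ι₀ → Fin W, ∀ i j : Fin F.m,
      (queryA hN hN0 hW0 D₀ i j).run mem = F.sets i ∩ F.sets j ∧
      (queryA hN hN0 hW0 D₀ i j).cost mem ≤
        (4 * C + 28) * (r * T + (F.sets i ∩ F.sets j).card) := by
    intro F
    have hm := F.m_le
    set B := N₀ / 2 with hB
    have hB1 : 1 ≤ B := by omega
    have hB2 : 2 * B ≤ N₀ := by omega
    have hB3 : N₀ ≤ 3 * B := by omega
    set deg : Fin W → ℕ := fun e => (univ.filter fun i => e ∈ F.sets i).card with hdeg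
    have hdc : ∀ U : Finset (Fin W), ∑ i, (F.sets i ∩ U).card = ∑ e ∈ U, deg e := by
      intro U
      have e1 : ∀ i, (F.sets i ∩ U).card = ∑ e ∈ U, if e ∈ F.sets i then 1 else 0 := by
        intro i
        rw [inter_comm, ← filter_mem_eq_inter, card_filter]
      simp only [e1, hdeg, card_filter]
      exact sum_comm
    have hdeg1 : ∑ e, deg e = r * N₀ := by
      rw [← hdc]
      simpa using F.total
    have hdivr : r * N₀ / B ≤ 3 * r := by
      apply Nat.div_le_of_le_mul
      nlinarith
    set w : Fin W → ℕ := fun e => if deg e ≤ B then deg e else 0 with hw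
    have hwdeg : ∀ e, w e ≤ deg e := by
      intro e; simp only [hw]; split_ifs <;> omega
    obtain ⟨f, hf1, hf2⟩ := bins w B hB1 (by
      intro e; simp only [hw]; split_ifs <;> omega)
    have hf : ∀ e, f e < 3 * r + 1 := by
      intro e
      have h1 : (∑ x, w x) / B ≤ r * N₀ / B := by
        apply Nat.div_le_div_right
        rw [← hdeg1]
        exact sum_le_sum fun x _ => hwdeg x
      have := hf1 e
      omega
    set U : Fin (3 * r + 1) → Finset (Fin W) :=
      fun p => univ.filter fun e => deg e ≤ B ∧ f e = p with hU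
    have hUsum : ∀ p, ∑ i, (F.sets i ∩ U p).card ≤ N₀ := by
      intro p
      rw [hdc]
      calc ∑ e ∈ U p, deg e = ∑ e ∈ U p, w e := by
            refine sum_congr rfl fun e he => ?_
            simp only [hU, mem_filter, mem_univ, true_and] at he
            simp only [hw, he.1, if_true]
        _ ≤ ∑ e ∈ univ.filter (fun e => f e = p), w e := by
            refine sum_le_sum_of_subset ?_
            intro e he
            simp only [hU, mem_filter, mem_univ, true_and] at he ⊢
            exact he.2
        _ ≤ 2 * B := hf2 p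
        _ ≤ N₀ := hB2
    have P : ∀ p, ∃ (F₀ : Family N₀ W₀)
        (idx : {i : Fin F.m // (F.sets i ∩ U p).Nonempty} → Fin F₀.m) (dec : Fin N₀ → Fin W),
        ∀ k l : {i : Fin F.m // (F.sets i ∩ U p).Nonempty},
        (F₀.sets (idx k) ∩ F₀.sets (idx l)).card =
          ((F.sets k.1 ∩ U p) ∩ (F.sets l.1 ∩ U p)).card ∧
        (F₀.sets (idx k) ∩ F₀.sets (idx l)).image (fun x : Fin W₀ => dec (md hN0 x)) =
          (F.sets k.1 ∩ U p) ∩ (F.sets l.1 ∩ U p) := by
      intro p
      refine pack hN0 hNW₀ hWp (fun k : {i : Fin F.m // (F.sets i ∩ U p).Nonempty} =>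
        F.sets k.1 ∩ U p) (fun k => k.2) (le_trans ?_ (hUsum p))
      have h1 : ∑ k : {i : Fin F.m // (F.sets i ∩ U p).Nonempty}, (F.sets k.1 ∩ U p).card =
          ∑ i ∈ univ.filter (fun i : Fin F.m => (F.sets i ∩ U p).Nonempty),
            (F.sets i ∩ U p).card :=
        (sum_subtype (univ.filter fun i : Fin F.m => (F.sets i ∩ U p).Nonempty)
          (by simp) (fun i => (F.sets i ∩ U p).card)).symm
      rw [h1]
      exact sum_le_sum_of_subset (subset_univ _)
    choose F₀ idx dec hpack using P
    -- the lists of the sets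
    set idv : Fin (3 * r + 1) → Fin F.m → ℕ := fun p i =>
      if h : (F.sets i ∩ U p).Nonempty then (idx p ⟨i, h⟩ : ℕ) else 0 with hidv
    have hidv1 : ∀ p i, idv p i < W := by
      intro p i
      simp only [hidv]
      split_ifs with h
      · have h1 := (idx p ⟨i, h⟩).2
        have h2 := (F₀ p).m_le
        have h3 : N₀ ≤ r * N₀ := Nat.le_mul_of_pos_left _ (by omega)
        omega
      · exact hWp
    set Qs : Fin F.m → List (ℕ × ℕ) := fun i =>
      (univ.filter fun p : Fin (3 * r + 1) => (F.sets i ∩ U p).Nonempty).toList.map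
        (fun p : Fin (3 * r + 1) => ((p : ℕ), idv p i)) with hQs
    set Hs : Fin F.m → List (Fin W) := fun i =>
      ((F.sets i).filter fun e => ¬ deg e ≤ B).toList with hHs
    have hQ1 : ∀ i, (Qs i).length ≤ 3 * r + 1 := by
      intro i
      simp only [hQs, List.length_map, length_toList]
      exact (card_le_univ _).trans (by simp)
    have hQ2 : ∀ i, (Qs i).length ≤ (F.sets i).card := by
      intro i
      simp only [hQs, List.length_map, length_toList]
      refine le_trans (card_le_card (t := (F.sets i).image fun e =>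
        (⟨f e, hf e⟩ : Fin (3 * r + 1))) ?_) card_image_le
      intro p hp
      obtain ⟨e, he⟩ := (mem_filter.1 hp).2
      rw [mem_inter] at he
      refine mem_image.2 ⟨e, he.1, ?_⟩
      have := he.2
      simp only [hU, mem_filter, mem_univ, true_and] at this
      exact Fin.ext this.2
    have hH1 : ∀ i, (Hs i).length ≤ 3 * r := by
      intro i
      simp only [hHs, length_toList]
      refine le_trans ?_ hdivr
      rw [Nat.le_div_iff_mul_le (by omega)]
      calc ((F.sets i).filter fun e => ¬ deg e ≤ B).card * B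
          = ∑ e ∈ (F.sets i).filter (fun e => ¬ deg e ≤ B), B := by simp
        _ ≤ ∑ e ∈ (F.sets i).filter (fun e => ¬ deg e ≤ B), deg e := by
            refine sum_le_sum fun e he => ?_
            have := (mem_filter.1 he).2
            omega
        _ ≤ ∑ e, deg e := sum_le_sum_of_subset (subset_univ _)
        _ = r * N₀ := hdeg1
    have hH2 : ∀ i, (Hs i).length ≤ (F.sets i).card := by
      intro i
      simp only [hHs, length_toList]
      exact card_filter_le _ _
    -- the memory
    set n : Fin F.m → ℕ := fun i => (F.sets i).card with hn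
    have hsn : ∀ i, start n i + n i ≤ r * N₀ := fun i => (start_add_le_total n i).trans F.total.le
    obtain ⟨a0, ha0⟩ := store 0 n fun i t => if h : t < (Qs i).length then ((Qs i)[t]).1 else 0
    obtain ⟨a1, ha1⟩ := store 0 n fun i t => if h : t < (Qs i).length then ((Qs i)[t]).2 else 0
    obtain ⟨a2, ha2⟩ := store (md hWp 0) n fun i t =>
      if h : t < (Hs i).length then (Hs i)[t] else md hWp 0
    set hdr : Fin (r * N₀) → Fin 3 → Fin W := fun x k =>
      if h : (x : ℕ) < F.m then
        (if k = 0 then md hWp (start n ⟨x, h⟩) else if k = 1 then md hWp (Qs ⟨x, h⟩).length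
          else md hWp (Hs ⟨x, h⟩).length)
      else md hWp 0 with hhdr
    set arr : Fin 3 → Fin (r * N₀) → Fin W := fun a y =>
      if a = 0 then md hWp (a0 y) else if a = 1 then md hWp (a1 y) else a2 y with harr
    set mem : CellA (r * N₀) r N₀ ι₀ → Fin W := Sum.elim (fun x => hdr x.1 x.2)
      (Sum.elim (fun x => arr x.1 x.2) (Sum.elim
        (fun x => md hWp (D₀.mem (F₀ x.1) x.2)) (fun x => dec x.1 x.2))) with hmem
    refine ⟨mem, ?_⟩
    have hr3 : 3 * r < W := by nlinarith
    have hQmem : ∀ i, ∀ x ∈ Qs i, x.1 < W ∧ x.2 < W := by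
      intro i x hx
      simp only [hQs, List.mem_map] at hx
      obtain ⟨p, -, rfl⟩ := hx
      have := p.2
      exact ⟨by simp only; omega, hidv1 p i⟩
    have info : ∀ i : Fin F.m,
        (infoA hN i : Alg (CellA (r * N₀) r N₀ ι₀) W _).run mem = (Qs i, Hs i) ∧
        (infoA hN i : Alg (CellA (r * N₀) r N₀ ι₀) W _).cost mem =
          3 + 2 * (Qs i).length + (Hs i).length := by
      intro i
      have him : (i : ℕ) < r * N₀ := lt_of_lt_of_le i.2 hm
      have hni := hsn i
      have hq1 := hQ1 i
      have hq2 : (Qs i).length ≤ n i := hQ2 i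
      have hh1 := hH1 i
      have hh2 : (Hs i).length ≤ n i := hH2 i
      have hnp : 0 < n i := (F.nonempty i).card_pos
      refine infoA_spec hN i (start n i) mem (Qs i) (Hs i) ?_ ?_ ?_ ?_ ?_ ?_
      · simp only [hmem, Sum.elim_inl, hhdr, md_val hN him, i.2, dif_pos, if_true, Fin.eta]
        exact md_val hWp (by omega)
      · simp only [hmem, Sum.elim_inl, hhdr, md_val hN him, i.2, dif_pos, Fin.eta]
        exact md_val hWp (by omega)
      · simp only [hmem, Sum.elim_inl, hhdr, md_val hN him, i.2, dif_pos, Fin.eta]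
        exact md_val hWp (by omega)
      · intro t ht
        have h1 : start n i + t < r * N₀ := by omega
        have h2 : ((Qs i)[t]).1 < W := (hQmem i _ (List.getElem_mem ht)).1
        simp only [hmem, Sum.elim_inl, Sum.elim_inr, harr, if_true, md_val hN h1]
        rw [ha0 i t (by omega), dif_pos ht]
        exact md_val hWp h2
      · intro t ht
        have h1 : start n i + t < r * N₀ := by omega
        have h2 : ((Qs i)[t]).2 < W := (hQmem i _ (List.getElem_mem ht)).2
        have h3 : mem (.inr (.inl (1, md hN (start n i + t)))) = md hWp (a1 (start n i + t)) := by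
          simp only [hmem, Sum.elim_inl, Sum.elim_inr, harr, md_val hN h1, one_ne_zero, if_false,
            if_true]
        rw [h3, ha1 i t (by omega), dif_pos ht]
        exact md_val hWp h2
      · intro t ht
        have h1 : start n i + t < r * N₀ := by omega
        have h3 : mem (.inr (.inl (2, md hN (start n i + t)))) = a2 (start n i + t) := by
          have e1 : (2 : Fin 3) ≠ 0 := by decide
          have e2 : (2 : Fin 3) ≠ 1 := by decide
          simp only [hmem, Sum.elim_inl, Sum.elim_inr, harr, md_val hN h1, e1, e2, if_false]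
        rw [h3, ha2 i t (by omega), dif_pos ht]
    have hlook : ∀ (i : Fin F.m) (p : Fin (3 * r + 1)),
        look (Qs i) p = if (F.sets i ∩ U p).Nonempty then some (idv p i) else none := by
      intro i p
      split_ifs with h
      · apply look_some
        intro l
        simp only [hQs, List.mem_map, mem_toList, mem_filter, mem_univ, true_and, Prod.mk.injEq]
        constructor
        · rintro ⟨q, -, h1, h2⟩
          rw [← h2, Fin.ext h1]
        · rintro rfl
          exact ⟨p, h, rfl, rfl⟩
      · apply look_none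
        intro l hl
        simp only [hQs, List.mem_map, mem_toList, mem_filter, mem_univ, true_and,
          Prod.mk.injEq] at hl
        obtain ⟨q, h1, h2, h3⟩ := hl
        rw [Fin.ext h2] at h1
        exact h h1
    intro i j
    obtain ⟨hi1, hi2⟩ := info i
    obtain ⟨hj1, hj2⟩ := info j
    set X : Fin (3 * r + 1) → Finset (Fin W) :=
      fun p => (F.sets i ∩ U p) ∩ (F.sets j ∩ U p) with hX
    set part : Fin (3 * r + 1) → Alg (CellA (r * N₀) r N₀ ι₀) W (Finset (Fin W)) :=
      fun p => match look (Qs i) p, look (Qs j) p with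
      | some l, some l' => sub hN0 hW0 D₀ (fun c => .inr (.inr (.inl (p, c))))
          (fun y => .inr (.inr (.inr (p, y)))) l l'
      | _, _ => .out ∅ with hpart
    have hpt : ∀ p, (part p).run mem = X p ∧
        (part p).cost mem ≤ C * (T + (X p).card) + (X p).card := by
      intro p
      by_cases h1 : (F.sets i ∩ U p).Nonempty
      · by_cases h2 : (F.sets j ∩ U p).Nonempty
        · have e1 : part p = sub hN0 hW0 D₀ (fun c => .inr (.inr (.inl (p, c))))
              (fun y => .inr (.inr (.inr (p, y)))) (idx p ⟨i, h1⟩ : ℕ) (idx p ⟨j, h2⟩ : ℕ) := by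
            simp only [hpart, hlook, h1, h2, if_true, hidv, dif_pos]
          rw [e1]
          obtain ⟨g1, g2⟩ := hpack p ⟨i, h1⟩ ⟨j, h2⟩
          refine sub_spec hN0 hW0 D₀ h₀ _ _ mem (F₀ p) (dec p) ?_ ?_ _ _ (X p) g1 g2
          · intro c
            simp only [hmem, Sum.elim_inl, Sum.elim_inr]
            have h3 : ((D₀.mem (F₀ p) c : Fin W₀) : ℕ) < W := lt_of_lt_of_le (D₀.mem (F₀ p) c).2 hWW
            rw [md_val hWp h3]
            exact md_fin hW0 _
          · intro y
            simp only [hmem, Sum.elim_inr]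
        · have e1 : part p = .out ∅ := by
            simp only [hpart, hlook, h1, h2, if_true, if_false]
          have e2 : X p = ∅ := by
            rw [not_nonempty_iff_eq_empty] at h2
            simp only [hX, h2, inter_empty]
          rw [e1, e2]
          simp
      · have e1 : part p = .out ∅ := by
          simp only [hpart, hlook, h1, if_false]
        have e2 : X p = ∅ := by
          rw [not_nonempty_iff_eq_empty] at h1
          simp only [hX, h1, empty_inter]
        rw [e1, e2]
        simp
    have hXU : ∀ p e, e ∈ X p ↔ e ∈ F.sets i ∧ e ∈ F.sets j ∧ deg e ≤ B ∧ f e = p := by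
      intro p e
      simp only [hX, hU, mem_inter, mem_filter, mem_univ, true_and]
      tauto
    have hXsum : ∑ p, (X p).card ≤ (F.sets i ∩ F.sets j).card := by
      rw [← card_biUnion]
      · refine card_le_card ?_
        intro e he
        obtain ⟨p, -, hp⟩ := mem_biUnion.1 he
        rw [hXU] at hp
        exact mem_inter.2 ⟨hp.1, hp.2.1⟩
      · intro p _ q _ hpq
        change Disjoint (X p) (X q)
        rw [disjoint_left]
        intro e h1 h2
        rw [hXU] at h1 h2
        exact hpq (Fin.ext (h1.2.2.2.symm.trans h2.2.2.2))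
    constructor
    · simp only [queryA, run_bind, hi1, hj1, run_out]
      ext e
      rw [mem_union, mem_run_unionFin]
      change (∃ p, e ∈ (part p).run mem) ∨ _ ↔ _
      simp only [(hpt _).1, hXU, mem_inter, List.mem_toFinset, hHs, mem_toList, mem_filter]
      constructor
      · rintro (⟨p, h1, h2, -⟩ | ⟨⟨h1, -⟩, h2, -⟩)
        · exact ⟨h1, h2⟩
        · exact ⟨h1, h2⟩
      · rintro ⟨h1, h2⟩
        by_cases h3 : deg e ≤ B
        · exact Or.inl ⟨⟨f e, hf e⟩, h1, h2, h3, rfl⟩
        · exact Or.inr ⟨⟨h1, h3⟩, h2, h3⟩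
    · simp only [queryA, cost_bind, hi1, hi2, hj1, hj2, cost_out, cost_unionFin]
      change _ + (_ + (∑ p, (part p).cost mem + 0)) ≤ _
      have h1 : ∑ p, (part p).cost mem ≤
          (3 * r + 1) * (C * T) + (C + 1) * (F.sets i ∩ F.sets j).card := by
        calc ∑ p, (part p).cost mem
            ≤ ∑ p : Fin (3 * r + 1), (C * T + (C + 1) * (X p).card) := by
              refine sum_le_sum fun p _ => (hpt p).2.trans (le_of_eq (by ring))
          _ = (3 * r + 1) * (C * T) + (C + 1) * ∑ p, (X p).card := by
              rw [sum_add_distrib, sum_const, card_univ, Fintype.card_fin, smul_eq_mul, mul_sum]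
          _ ≤ _ := by
              have := Nat.mul_le_mul_left (C + 1) hXsum
              omega
      have h2 := hQ1 i
      have h3 := hQ1 j
      have h4 := hH1 i
      have h5 := hH1 j
      have h6 : r ≤ r * T := Nat.le_mul_of_pos_right _ (by omega)
      have h7 : C * T ≤ r * (C * T) := Nat.le_mul_of_pos_left _ (by omega)
      have h8 : (4 * C + 28) * (r * T + (F.sets i ∩ F.sets j).card) =
        4 * (r * (C * T)) + 28 * (r * T) + (C + 1) * (F.sets i ∩ F.sets j).card +
          (3 * C + 27) * (F.sets i ∩ F.sets j).card := by ring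
      have h9 : (3 * r + 1) * (C * T) = 3 * (r * (C * T)) + C * T := by ring
      rw [h8]
      rw [h9] at h1
      omega
  choose mem hmem using key
  exact ⟨⟨mem, fun i j => queryA hN hN0 hW0 D₀ i j⟩, hmem⟩

end Pool.Agent.N606.SI
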