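import Pool.Agent.N606.SI.Pack

set_option autoImplicit false

namespace Pool.Agent.N606.SI

open Finset Alg

/-- Simulate the query `l, l'` of the data structure `D₀`, which is stored at the cells `f c`, and
translate the result with the table at the cells `g y`. -/
noncomputable def sub {ι ι₀ : Type} {N₀ W₀ W : ℕ} (hN : 0 < N₀) (hW : 0 < W₀) (D₀ : DS ι₀ N₀ W₀)
    (f : ι₀ → ι) (g : Fin N₀ → ι) (l l' : ℕ) : Alg ι W (Finset (Fin W)) :=
  ((D₀.query l l').embed f (fun w => md hW w)).bind fun R =>
    (readList (R.toList.map fun x : Fin W₀ => g (md hN (x : ℕ)))).bind fun ws => .out ws.toFinset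

theorem sub_spec {ι ι₀ : Type} {N₀ W₀ W C T : ℕ} (hN : 0 < N₀) (hW : 0 < W₀) (D₀ : DS ι₀ N₀ W₀)
    (h₀ : D₀.Solves C T) (f : ι₀ → ι) (g : Fin N₀ → ι) (mem : ι → Fin W) (F₀ : Family N₀ W₀)
    (dec : Fin N₀ → Fin W) (h1 : ∀ c, md hW (mem (f c)) = D₀.mem F₀ c)
    (h2 : ∀ y, mem (g y) = dec y) (l l' : Fin F₀.m) (X : Finset (Fin W))
    (h3 : (F₀.sets l ∩ F₀.sets l').card = X.card)
    (h4 : (F₀.sets l ∩ F₀.sets l').image (fun x : Fin W₀ => dec (md hN x)) = X) :
    (sub hN hW D₀ f g l l').run mem = X ∧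
      (sub hN hW D₀ f g l l').cost mem ≤ C * (T + X.card) + X.card := by
  classical
  obtain ⟨e1, e2⟩ := h₀ F₀ l l'
  have r1 := run_embed f (fun w => md hW w) mem (D₀.mem F₀) h1 (D₀.query l l')
  have r2 := cost_embed f (fun w => md hW w) mem (D₀.mem F₀) h1 (D₀.query l l')
  constructor
  · simp only [sub, run_bind, run_readList, run_out, r1, e1]
    rw [← h4]
    ext x
    simp only [List.map_map, List.mem_toFinset, List.mem_map, mem_toList, Function.comp_apply,
      mem_image, h2]
  · simp only [sub, cost_bind, cost_readList, cost_out, run_readList, r1, r2, e1,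
      List.length_map, length_toList, h3]
    rw [h3] at e2
    omega

theorem range_map {X : Type} (l : List X) (g : ℕ → X) (h : ∀ t (ht : t < l.length), g t = l[t]) :
    (List.range l.length).map g = l := by
  apply List.ext_getElem
  · simp
  · intro t h1 h2
    simp only [List.getElem_map, List.getElem_range]
    exact h t h2

end Pool.Agent.N606.SI
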