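import Pool.Agent.N606.SI.SplitU
import Pool.Agent.N606.SI.Blocks

set_option autoImplicit false

namespace Pool.Agent.N606.SI

open Finset Alg

/-- add `k` sets with one element -/
def pad {N W : ℕ} (hW : 0 < W) (k : ℕ) (F : Family N W) : Family (N + k) W where
  m := F.m + k
  sets := Fin.append F.sets (fun _ => {⟨0, hW⟩})
  nonempty := by
    intro i
    refine Fin.addCases (fun a => ?_) (fun a => ?_) i
    · rw [Fin.append_left]; exact F.nonempty a
    · rw [Fin.append_right]; exact singleton_nonempty _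
  total := by
    rw [Fin.sum_univ_add]
    simp only [Fin.append_left, Fin.append_right, card_singleton, sum_const, card_univ,
      Fintype.card_fin, smul_eq_mul, mul_one, F.total]

theorem mono {ι : Type} {N k W C T : ℕ} (hW : 0 < W) (D : DS ι (N + k) W) (h : D.Solves C T) :
    ∃ D' : DS ι N W, D'.Solves C T := by
  refine ⟨⟨fun F => D.mem (pad hW k F), D.query⟩, ?_⟩
  intro F i j
  have h1 := h (pad hW k F) (Fin.castAdd k i) (Fin.castAdd k j)
  have e1 : ∀ i : Fin F.m, (pad hW k F).sets (Fin.castAdd k i) = F.sets i := by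
    intro i
    simp only [pad, Fin.append_left]
  rw [e1, e1] at h1
  exact h1

theorem mono_time {ι : Type} {N W C T T' : ℕ} (hT : T ≤ T') {D : DS ι N W} (h : D.Solves C T) :
    D.Solves C T' := by
  intro F i j
  obtain ⟨h1, h2⟩ := h F i j
  exact ⟨h1, h2.trans (Nat.mul_le_mul_left _ (by omega))⟩

/-- The information-theoretic bound. -/
theorem info {ι : Type} [Fintype ι] {N W C T : ℕ} (hN : 2 ≤ N) (hW : N ≤ W) (D : DS ι N W)
    (h : D.Solves C T) : 2 ^ (N / 2 - 1) ≤ W ^ Fintype.card ι := by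
  classical
  have hWp : 0 < W := by omega
  set z : Fin W := ⟨0, hWp⟩ with hz
  set R : Finset (Fin W) := univ.filter fun x => (x : ℕ) < N / 2 with hR
  have hRc : R.card = N / 2 := by
    have h1 : R = (Finset.range (N / 2)).attachFin (fun n hn => by
        have := Finset.mem_range.1 hn; omega) := by
      ext x
      simp [hR, Finset.mem_attachFin]
    rw [h1, Finset.card_attachFin, card_range]
  have hzR : z ∈ R := by
    simp only [hR, mem_filter, mem_univ, true_and, hz]
    omega
  have hsub : ∀ A ∈ (R.erase z).powerset, insert z A ⊆ R := by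
    intro A hA
    rw [mem_powerset] at hA
    exact insert_subset hzR (hA.trans (erase_subset _ _))
  set Fm : (A : Finset (Fin W)) → A ∈ (R.erase z).powerset → Family N W := fun A hA =>
    { m := 2 + (N - N / 2 - (insert z A).card)
      sets := Fin.append ![insert z A, R] (fun _ => {z})
      nonempty := by
        intro i
        refine Fin.addCases (fun a => ?_) (fun a => ?_) i
        · rw [Fin.append_left]
          fin_cases a
          · exact insert_nonempty _ _
          · exact ⟨z, hzR⟩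
        · rw [Fin.append_right]; exact singleton_nonempty _
      total := by
        rw [Fin.sum_univ_add, Fin.sum_univ_two]
        simp only [Fin.append_left, Fin.append_right, card_singleton, sum_const, card_univ,
          Fintype.card_fin, smul_eq_mul, mul_one, Matrix.cons_val_zero, Matrix.cons_val_one]
        have h1 := card_le_card (hsub A hA)
        rw [hRc] at h1 ⊢
        omega } with hFm
  have hinj : ∀ A hA A' hA', D.mem (Fm A hA) = D.mem (Fm A' hA') → A = A' := by
    intro A hA A' hA' hmem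
    have key : ∀ A hA, (D.query 0 1).run (D.mem (Fm A hA)) = insert z A := by
      intro A hA
      have h1 := (h (Fm A hA) (Fin.castAdd _ 0) (Fin.castAdd _ 1)).1
      have e0 : (Fm A hA).sets (Fin.castAdd (N - N / 2 - (insert z A).card) (0 : Fin 2)) =
          insert z A := by
        show Fin.append ![insert z A, R] (fun _ => {z})
          (Fin.castAdd (N - N / 2 - (insert z A).card) (0 : Fin 2)) = _
        rw [Fin.append_left]
        rfl
      have e1 : (Fm A hA).sets (Fin.castAdd (N - N / 2 - (insert z A).card) (1 : Fin 2)) = R := by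
        show Fin.append ![insert z A, R] (fun _ => {z})
          (Fin.castAdd (N - N / 2 - (insert z A).card) (1 : Fin 2)) = _
        rw [Fin.append_left]
        rfl
      rw [e0, e1, inter_eq_left.2 (hsub A hA)] at h1
      exact h1
    have h1 := key A hA
    rw [hmem, key A' hA'] at h1
    have hzA : z ∉ A := fun hh => notMem_erase z R (mem_powerset.1 hA hh)
    have hzA' : z ∉ A' := fun hh => notMem_erase z R (mem_powerset.1 hA' hh)
    rw [← erase_insert hzA, ← erase_insert hzA', h1]
  have hc : ((R.erase z).powerset).card ≤ Fintype.card (ι → Fin W) := by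
    rw [← Fintype.card_coe]
    refine Fintype.card_le_of_injective
      (fun A : {A // A ∈ (R.erase z).powerset} => D.mem (Fm A.1 A.2)) ?_
    intro A A' hAA
    exact Subtype.ext (hinj A.1 A.2 A'.1 A'.2 hAA)
  rw [card_powerset, card_erase_of_mem hzR, hRc, Fintype.card_fun, Fintype.card_fin] at hc
  exact hc

theorem le_words {β N : ℕ} (hβ : 1 ≤ β) : 8 * N ≤ words β N := by
  have h1 : N ≤ 2 ^ Nat.clog 2 N := Nat.le_pow_clog (by norm_num) N
  calc 8 * N ≤ 8 * 2 ^ Nat.clog 2 N := Nat.mul_le_mul_left _ h1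
    _ = 2 ^ (Nat.clog 2 N + 3) := by rw [pow_add]; ring
    _ ≤ words β N := Nat.pow_le_pow_right (by norm_num) (Nat.le_mul_of_pos_left _ (by omega))

theorem words_mono {β M N : ℕ} (h : M ≤ N) : words β M ≤ words β N := by
  unfold words
  refine Nat.pow_le_pow_right (by norm_num) (Nat.mul_le_mul_left _ ?_)
  have := Nat.clog_mono_right 2 h
  omega

theorem info' {β C N T S : ℕ} (hβ : 1 ≤ β) (hN : 2 ≤ N) (h : HasStructure β C N T S) :
    N / 2 - 1 ≤ β * (Nat.clog 2 N + 3) * S := by
  obtain ⟨D, hD⟩ := h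
  have h8 := le_words (N := N) hβ
  have h1 := info hN (by omega) D hD
  rw [Fintype.card_fin, words, ← pow_mul] at h1
  exact (Nat.pow_le_pow_iff_right (by norm_num)).1 h1

/-- The transfer principle. -/
theorem transfer {β C M N T₀ T₁ S₀ : ℕ} (hβ : 1 ≤ β) (hM : 4 ≤ M) (hT₀ : 1 ≤ T₀) (hTT : T₀ ≤ T₁)
    (hMN : M * T₁ ≤ N * T₀) (h : HasStructure β C M T₀ S₀) :
    ∃ S, HasStructure β (4 * C + 60) N T₁ S ∧
      S * T₁ * M ^ 2 ≤ 3280 * N ^ 2 * T₀ * (S₀ + M) := by
  obtain ⟨D₀, hD₀⟩ := h
  set r := T₁ / T₀ with hr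
  have hr1 : 1 ≤ r := by rw [hr]; exact (Nat.one_le_div_iff (by omega)).2 hTT
  have hr2 : r * T₀ ≤ T₁ := Nat.div_mul_le_self _ _
  have hr3 : T₁ < r * T₀ + T₀ := by
    have := Nat.lt_div_mul_add (a := T₁) (b := T₀) (by omega)
    exact this
  have hr4 : T₁ ≤ 2 * (r * T₀) := by
    have : T₀ ≤ r * T₀ := Nat.le_mul_of_pos_left _ (by omega)
    omega
  have hrM : r * M ≤ N := by
    have h1 : (r * M) * T₀ ≤ N * T₀ := by
      calc (r * M) * T₀ = M * (r * T₀) := by ring
        _ ≤ M * T₁ := Nat.mul_le_mul_left _ hr2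
        _ ≤ N * T₀ := hMN
    exact Nat.le_of_mul_le_mul_right h1 (by omega)
  have hrMp : 0 < r * M := Nat.mul_pos (by omega) (by omega)
  have hMrM : M ≤ r * M := Nat.le_mul_of_pos_left _ (by omega)
  set b := N / (r * M) + 1 with hb
  have hb1 : 1 ≤ b := by rw [hb]; exact Nat.le_add_left _ _
  have hb2 : N ≤ r * (b * M) := by
    have h1 := Nat.lt_div_mul_add (a := N) hrMp
    have e : r * (b * M) = N / (r * M) * (r * M) + r * M := by rw [hb]; ring
    rw [e]
    exact h1.le
  have hb3 : r * (b * M) ≤ 2 * N := by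
    have h1 := Nat.div_mul_le_self N (r * M)
    have e : r * (b * M) = N / (r * M) * (r * M) + r * M := by rw [hb]; ring
    rw [e]
    linarith
  have hbM : b * M ≤ r * (b * M) := Nat.le_mul_of_pos_left _ (by omega)
  have hMb : M ≤ b * M := Nat.le_mul_of_pos_left _ (by omega)
  have hw := le_words (N := N) hβ
  have hw0 := le_words (N := M) hβ
  have hww : words β M ≤ words β N := words_mono (by omega)
  obtain ⟨D₁, hD₁⟩ := blocks (W := words β N) hM hb1 (by omega) hww (by omega) hT₀ D₀ hD₀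
  obtain ⟨D₂, hD₂⟩ := splitUniverse (r := r) (W := words β N) (by omega) hr1 (by omega) le_rfl
    (by omega) hT₀ D₁ hD₁
  obtain ⟨k, hk⟩ := Nat.exists_eq_add_of_le hb2
  obtain ⟨D₃, hD₃⟩ : ∃ D' : DS (CellA (r * (b * M)) r (b * M) (CellB (b * M) b M (Fin S₀))) N
      (words β N), D'.Solves (4 * (C + 8) + 28) (r * T₀) := by
    have hgen : ∀ X, X = N + k → ∀ D : DS (CellA (r * (b * M)) r (b * M)
        (CellB (b * M) b M (Fin S₀))) X (words β N), D.Solves (4 * (C + 8) + 28) (r * T₀) →
        ∃ D' : DS (CellA (r * (b * M)) r (b * M) (CellB (b * M) b M (Fin S₀))) N (words β N),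
          D'.Solves (4 * (C + 8) + 28) (r * T₀) := by
      rintro X rfl D hD
      exact mono (by omega) D hD
    exact hgen _ hk D₂ hD₂
  obtain ⟨D₄, hD₄⟩ := transport (by omega) le_rfl D₃ hD₃
  have hD₅ := mono_time hr2 hD₄
  have e60 : 4 * (C + 8) + 28 = 4 * C + 60 := by ring
  rw [e60] at hD₅
  refine ⟨_, ⟨D₄, hD₅⟩, ?_⟩
  have hcB : Fintype.card (CellB (b * M) b M (Fin S₀)) ≤ 100 * (b ^ 2 * (S₀ + M)) := by
    simp only [Fintype.card_sum, Fintype.card_prod, Fintype.card_fin]
    have h1 : b ≤ b ^ 2 := Nat.le_self_pow (by norm_num) b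
    have h2 : b * M ≤ b ^ 2 * M := Nat.mul_le_mul_right _ h1
    have h3 : 1 ≤ b ^ 2 := Nat.one_le_pow _ _ hb1
    nlinarith [Nat.mul_le_mul_right S₀ h1, Nat.mul_le_mul_right M h1, Nat.mul_le_mul_right S₀ h3,
      Nat.mul_le_mul_right M h3]
  have hcA : Fintype.card (CellA (r * (b * M)) r (b * M) (CellB (b * M) b M (Fin S₀))) ≤
      410 * (r * (b ^ 2 * (S₀ + M))) := by
    have h0 : Fintype.card (CellA (r * (b * M)) r (b * M) (CellB (b * M) b M (Fin S₀))) =
        r * (b * M) * 3 + (3 * (r * (b * M)) + ((3 * r + 1) *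
          Fintype.card (CellB (b * M) b M (Fin S₀)) + (3 * r + 1) * (b * M))) := by
      rw [Fintype.card_sum, Fintype.card_sum, Fintype.card_sum, Fintype.card_prod,
        Fintype.card_prod, Fintype.card_prod, Fintype.card_prod]
      simp only [Fintype.card_fin]
    rw [h0]
    have h1 : b ≤ b ^ 2 := Nat.le_self_pow (by norm_num) b
    have h2 : b * M ≤ b ^ 2 * (S₀ + M) := Nat.mul_le_mul h1 (by omega)
    have h3 : (3 * r + 1) * Fintype.card (CellB (b * M) b M (Fin S₀)) ≤
        (4 * r) * (100 * (b ^ 2 * (S₀ + M))) := Nat.mul_le_mul (by omega) hcB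
    have h4 : (3 * r + 1) * (b * M) ≤ (4 * r) * (b ^ 2 * (S₀ + M)) := Nat.mul_le_mul (by omega) h2
    have h5 : r * (b * M) ≤ r * (b ^ 2 * (S₀ + M)) := Nat.mul_le_mul_left _ h2
    nlinarith
  calc Fintype.card (CellA (r * (b * M)) r (b * M) (CellB (b * M) b M (Fin S₀))) * T₁ * M ^ 2
      ≤ 410 * (r * (b ^ 2 * (S₀ + M))) * (2 * (r * T₀)) * M ^ 2 :=
        Nat.mul_le_mul_right _ (Nat.mul_le_mul hcA hr4)
    _ = 820 * (r * (b * M)) ^ 2 * (T₀ * (S₀ + M)) := by ring
    _ ≤ 820 * (2 * N) ^ 2 * (T₀ * (S₀ + M)) :=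
        Nat.mul_le_mul_right _ (Nat.mul_le_mul_left _ (Nat.pow_le_pow_left hb3 2))
    _ = 3280 * N ^ 2 * T₀ * (S₀ + M) := by ring

end Pool.Agent.N606.SI
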